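import Pool.Agent.P.MP_081461_lc.Creat

/-! The parameters, the creatures, and the two properties of the Boolean completion. -/

namespace Pool.Agent.P.MP_081461_lc

open Set Pool.Agent.P.MP_b10269_lc.H21 Pool.Agent.P.MP_54b694_lc
open scoped Cardinal

variable (F : ℕ → ℕ)

/-- the start of the `k`-th block and a bound for everything defined before -/
def st (k : ℕ) : ℕ × ℕ :=
  Nat.rec (0, 1) (fun k p => (p.1 + (p.2 ^ (k * p.2)) ^ k,
    p.2 * F (p.1 + (p.2 ^ (k * p.2)) ^ k) ^ (p.2 ^ (k * p.2)) ^ k + 2)) k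

/-- the number of colours -/
def dd (k : ℕ) : ℕ := (st F k).2 ^ (k * (st F k).2)

/-- the length of the block -/
def len (k : ℕ) : ℕ := dd F k ^ k

/-- the faster function -/
def GG (k : ℕ) : ℕ := (st F (k + 1)).2 - 1

theorem st_fst (k : ℕ) : (st F (k + 1)).1 = (st F k).1 + len F k := rfl

theorem GG_eq (k : ℕ) : GG F k = (st F k).2 * F (st F (k + 1)).1 ^ len F k + 1 := rfl

theorem st_snd (k : ℕ) : (st F (k + 1)).2 = GG F k + 1 := rfl

theorem g_pos (k : ℕ) : 0 < (st F k).2 := by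
  cases k
  exacts [Nat.one_pos, Nat.succ_pos _]

theorem dd_pos (k : ℕ) : 0 < dd F k := pow_pos (g_pos F k) _

theorem len_pos (k : ℕ) : 0 < len F k := pow_pos (dd_pos F k) _

theorem s_mono : StrictMono fun k => (st F k).1 :=
  strictMono_nat_of_lt_succ fun k => Nat.lt_add_of_pos_right (len_pos F k)

theorem computable_GG (hc : Computable F) : Computable (GG F) := by
  have hp : Primrec₂ fun a b : ℕ => a ^ b := Primrec₂.unpaired'.mp Nat.Primrec.pow
  have h1 : Primrec fun z : ℕ × ℕ × ℕ × ℕ => (z.2.2.2 ^ (z.2.1 * z.2.2.2)) ^ z.2.1 :=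
    have a : Primrec fun z : ℕ × ℕ × ℕ × ℕ => z.2.1 := Primrec.fst.comp Primrec.snd
    have b : Primrec fun z : ℕ × ℕ × ℕ × ℕ => z.2.2.2 :=
      Primrec.snd.comp (Primrec.snd.comp Primrec.snd)
    hp.comp (hp.comp b (Primrec.nat_mul.comp a b)) a
  have h2 : Primrec fun z : ℕ × ℕ × ℕ × ℕ => z.2.2.1 + (z.2.2.2 ^ (z.2.1 * z.2.2.2)) ^ z.2.1 :=
    Primrec.nat_add.comp (Primrec.fst.comp (Primrec.snd.comp Primrec.snd)) h1
  have h3 : Computable (st F) := Computable.nat_rec (f := fun k => k) (g := fun _ => (0, 1))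
    (h := fun _ z => (z.2.1 + (z.2.2 ^ (z.1 * z.2.2)) ^ z.1,
      z.2.2 * F (z.2.1 + (z.2.2 ^ (z.1 * z.2.2)) ^ z.1) ^ (z.2.2 ^ (z.1 * z.2.2)) ^ z.1 + 2))
    Computable.id (Computable.const _) (h2.to_comp.pair (Primrec.nat_add.to_comp.comp
      (Primrec.nat_mul.to_comp.comp (Primrec.snd.comp (Primrec.snd.comp Primrec.snd)).to_comp
        (hp.to_comp.comp (hc.comp h2.to_comp) h1.to_comp)) (Computable.const 2)))
  exact Primrec.nat_sub.to_comp.comp (Computable.snd.comp (h3.comp Computable.succ))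
    (Computable.const 1)

/-- the possible values of the generic real on a block -/
abbrev TT (k : ℕ) : Type := (i : Fin (len F k)) → Fin (F ((st F k).1 + i))

variable {F}

section

variable (h2 : ∀ n, 2 ≤ F n) (hm : Monotone F)
include h2

theorem g_mono : StrictMono fun k => (st F k).2 := strictMono_nat_of_lt_succ fun k => by
  have := Nat.le_mul_of_pos_right (st F k).2
    (pow_pos (two_pos.trans_le (h2 (st F (k + 1)).1)) (len F k))
  rw [st_snd, GG_eq]
  omega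

include hm

theorem GG_ge (k : ℕ) : k * F k ≤ GG F k := by
  rw [GG_eq]
  exact Nat.le_succ_of_le (Nat.mul_le_mul (g_mono h2).le_apply
    ((hm (k.le_succ.trans (s_mono F).le_apply)).trans (Nat.le_self_pow (len_pos F k).ne' _)))

omit h2 in
theorem card_poss (k : ℕ) : Fintype.card ((i : Fin k) → TT F i) ≤ (st F k).2 ∧
    Fintype.card ((i : Fin (k + 1)) → TT F i) < GG F k := by
  have key : ∀ k, Fintype.card ((i : Fin k) → TT F i) ≤ (st F k).2 →
      Fintype.card ((i : Fin (k + 1)) → TT F i) < GG F k := fun k h => by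
    rw [Fintype.card_pi] at h
    rw [Fintype.card_pi, Fin.prod_univ_castSucc, GG_eq]
    refine Nat.lt_succ_of_le (Nat.mul_le_mul h ?_)
    rw [Fintype.card_pi]
    refine (Finset.prod_le_pow_card _ _ (F (st F (k + 1)).1) fun i _ => ?_).trans (by simp)
    rw [Fintype.card_fin]
    exact hm (Nat.add_le_add_left i.2.le _)
  induction k with
  | zero => exact ⟨by simp [st], key 0 (by simp [st])⟩
  | succ k ih => exact ⟨ih.2.le.trans (Nat.le_succ _), key _ (ih.2.le.trans (Nat.le_succ _))⟩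

/-- the norm counts how many functions can be met at once -/
def creat : Creat (TT F) fun n => Fin (GG F n + 1) where
  nor k C m := ∀ Y : Finset (TT F k), Y.card ≤ dd F k ^ m → ∃ x ∈ C, ∀ y ∈ Y, ∃ i, x i = y i
  anti h H Y hY := H Y (hY.trans (Nat.pow_le_pow_right (dd_pos F _) h))
  full k Y hY := by
    classical
    obtain ⟨e⟩ : Nonempty (Y ↪ Fin (len F k)) :=
      Function.Embedding.nonempty_of_card_le (by rw [Fintype.card_coe, Fintype.card_fin]; exact hY)
    refine ⟨fun i => if h : ∃ y, e y = i then h.choose.1 i else ⟨0, two_pos.trans_le (h2 _)⟩,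
      trivial, fun y hy => ⟨e ⟨y, hy⟩, ?_⟩⟩
    have h : ∃ z, e z = e ⟨y, hy⟩ := ⟨_, rfl⟩
    exact (dif_pos h).trans (by rw [e.injective h.choose_spec])
  ne h := (h ∅ (Nat.zero_le _)).imp fun _ h => h.1
  big {k C m} j hj c h := by
    classical
    by_contra hc
    push Not at hc
    choose Y h1 h3 using hc
    obtain ⟨x, hx, h4⟩ := h (Finset.univ.biUnion Y) (by
      refine (Finset.card_biUnion_le_card_mul _ _ _ fun v _ => h1 v).trans ?_
      rw [pow_succ']
      refine Nat.mul_le_mul_right _ ?_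
      rw [Finset.card_univ, Fintype.card_fun, dd, pow_mul]
      refine (Nat.pow_le_pow_left (?_ : _ ≤ (st F k).2 ^ k) _).trans (Nat.pow_le_pow_right
        (pow_pos (g_pos F k) _) ((card_poss hm j).1.trans ((g_mono h2).monotone hj)))
      rw [Fintype.card_pi]
      refine (Finset.prod_le_pow_card _ _ (st F k).2 fun n _ => ?_).trans (by simp)
      rw [Fintype.card_fin, ← st_snd]
      exact (g_mono h2).monotone n.2)
    obtain ⟨y, y1, y2⟩ := h3 (c x) x ⟨hx, rfl⟩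
    obtain ⟨i, hi⟩ := h4 y (Finset.mem_biUnion.mpr ⟨_, Finset.mem_univ _, y1⟩)
    exact y2 i hi

end

section

variable (B : Type) [CompleteBooleanAlgebra B]

/-- every new real is everywhere different from an old real below `G` -/
def Evade (G : ℕ → ℕ) : Prop :=
  ∀ (X : ℕ → ℕ → B) (p : B), p ≠ ⊥ → (∀ n, p ≤ ⨆ m, X n m) →
    (∀ n m m', m ≠ m' → p ⊓ X n m ⊓ X n m' = ⊥) →
    ∃ q, q ≠ ⊥ ∧ q ≤ p ∧ ∃ y : ℕ → ℕ, (∀ n, y n < G n) ∧ ∀ n, q ≤ (X n (y n))ᶜ

/-- continuum many names for reals below `F` are met infinitely often by one real -/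
def Meet (F : ℕ → ℕ) : Prop :=
  ∀ ι : Type, #ι ≤ 𝔠 → ∀ Y : ι → ℕ → ℕ → B, ∃ X : ℕ → ℕ → B, (∀ n, ⨆ m, X n m = ⊤) ∧
    (∀ n m m', m ≠ m' → X n m ⊓ X n m' = ⊥) ∧
    ∀ i p, p ≠ ⊥ → (∀ n, p ≤ ⨆ m : Fin (F n), Y i n m) →
      ∀ l, ∃ n, l ≤ n ∧ ∃ m, p ⊓ X n m ⊓ Y i n m ≠ ⊥

end

variable {B : Type} [CompleteBooleanAlgebra B] {Λ : Type}

theorem exists_support {T K : ℕ → Type} [∀ k, Fintype (T k)] [∀ n, Fintype (K n)]
    {N : Creat T K} (P : Pres (Cond N Λ) B) (b : B) : ∃ S : Set Λ, #S ≤ 𝔠 ∧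
      ∀ q q' : Cond N Λ, (∀ α ∈ S, q'.s α = q.s α) → P.e q ≤ b → P.e q' ≤ b := by
  obtain ⟨A, a1, a2, a3⟩ := Cond.cc.exists_predense (P.pts bᶜ)
  refine ⟨⋃ a ∈ A, {α | a.s α ≠ fun _ => univ}, mk_biUnion_le_of Cardinal.aleph0_le_continuum a2
    fun a _ => (Cardinal.le_aleph0_iff_set_countable.mpr a.supp).trans
      Cardinal.aleph0_le_continuum, fun q q' h hq => ?_⟩
  by_contra hc
  obtain ⟨r, r1, r2⟩ := (P.reg_pts b).exists_neg hc
  obtain ⟨a, ha, t, t1, t2⟩ := a3 r ((P.compl r b).mpr r2)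
  have g1 : Cond.glue (⋃ a ∈ A, {α | a.s α ≠ fun _ => univ}) t q ≤ q := fun α k => by
    by_cases hα : α ∈ ⋃ a ∈ A, {α | a.s α ≠ fun _ => univ}
    · rw [Cond.glue_pos _ _ hα, ← h α hα]
      exact (t1.trans r1) α k
    · rw [Cond.glue_neg _ _ hα]
  have g2 : Cond.glue (⋃ a ∈ A, {α | a.s α ≠ fun _ => univ}) t q ≤ a := fun α k => by
    by_cases hα : α ∈ ⋃ a ∈ A, {α | a.s α ≠ fun _ => univ}
    · rw [Cond.glue_pos _ _ hα]
      exact t2 α k
    · rw [show a.s α = fun _ => univ from not_not.mp fun h => hα (mem_biUnion ha h)]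
      exact subset_univ _
  exact (P.compl a b).mp (a1 ha) _ g2 ((P.mono g1).trans hq)

theorem evade (h2 : ∀ n, 2 ≤ F n) (hm : Monotone F) [Nonempty Λ]
    (P : Pres (Cond (creat h2 hm) Λ) B) : Evade B (GG F) := by
  intro X p hp h1 h3
  obtain ⟨q, hq⟩ := P.dense p hp
  obtain ⟨r, r1, r2⟩ := timely (N := creat h2 hm) (p := q)
    (A := fun n v => {t | ∃ m, min m (GG F n) = v ∧ P.e t ≤ X n m})
    (fun n v _ _ h => Exists.imp fun m g => ⟨g.1, (P.mono h).trans g.2⟩) fun n t ht => by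
      obtain ⟨u, u1, m, u2⟩ := (P.le_iSup_iff q _).mp (hq.trans (h1 n)) t ht
      exact ⟨u, u1, ⟨min m (GG F n), Nat.lt_succ_of_le (min_le_right _ _)⟩, m, rfl, u2⟩
  choose S s1 s2 using r2
  have hy : ∀ n, ∃ y : Fin (GG F n), y.castSucc ∉ S n := fun n => by
    by_contra hc
    push Not at hc
    have := Finset.card_le_card_of_injOn (s := Finset.univ) Fin.castSucc (fun y _ => hc y)
      (Fin.castSucc_injective _).injOn
    rw [Finset.card_univ, Fintype.card_fin] at this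
    exact absurd ((this.trans (s1 n)).trans_lt (card_poss hm n).2) (lt_irrefl _)
  choose y hy using hy
  refine ⟨_, P.ne_bot r, (P.mono r1).trans hq, fun n => y n, fun n => (y n).2, fun n =>
    (P.compl _ _).mpr fun t ht g => ?_⟩
  obtain ⟨u, u1, v, v1, m, m1, m2⟩ := s2 n t ht
  by_cases e : m = y n
  · rw [e, min_eq_left (y n).2.le] at m1
    exact hy n ((Fin.ext m1 : (y n).castSucc = v) ▸ v1)
  · exact P.ne_bot u (le_bot_iff.mp ((le_inf (le_inf ((P.mono ((u1.trans ht).trans r1)).trans hq)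
      m2) ((P.mono u1).trans g)).trans (h3 n _ _ e).le))

theorem exists_block (n : ℕ) : ∃ k, ∃ i : Fin (len F k), (st F k).1 + i = n := by
  have h : ∃ k, n < (st F (k + 1)).1 := ⟨n, (s_mono F).le_apply (x := n + 1)⟩
  classical
  have h1 : (st F (Nat.find h)).1 ≤ n := by
    rcases e : Nat.find h with _ | k
    · exact Nat.zero_le _
    · exact not_lt.mp (Nat.find_min h (k.lt_succ_self.trans_eq e.symm))
  have h3 := Nat.find_spec h
  rw [st_fst] at h3
  exact ⟨Nat.find h, ⟨n - (st F (Nat.find h)).1, by omega⟩, Nat.add_sub_cancel' h1⟩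

theorem block_unique {k k' : ℕ} {i : Fin (len F k)} {i' : Fin (len F k')}
    (h : (st F k).1 + i = (st F k').1 + i') : k = k' := by
  have key : ∀ {k k' : ℕ} (i : Fin (len F k)) (i' : ℕ), (st F k).1 + i = (st F k').1 + i' →
      k' ≤ k := fun {k k'} i i' h => not_lt.mp fun hk => by
    have h1 : (st F (k + 1)).1 ≤ (st F k').1 := (s_mono F).monotone hk
    have := i.2
    rw [st_fst] at h1
    omega
  exact (key i' i h.symm).antisymm (key i i' h)

theorem meet (h2 : ∀ n, 2 ≤ F n) (hm : Monotone F)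
    (P : Pres (Cond (creat h2 hm) (W 𝔠)) B) : Meet B F := by
  intro ι hι Y
  choose S s1 s2 using exists_support P
  have hc : #(ι × ℕ × ℕ) ≤ 𝔠 := by
    simpa using Cardinal.mul_le_of_le Cardinal.aleph0_le_continuum hι Cardinal.aleph0_le_continuum
  obtain ⟨α, hα⟩ := W_bdd Cardinal.aleph0_le_continuum
    (⋃ z : ι × ℕ × ℕ, S (Y z.1 z.2.1 z.2.2))
    (mk_iUnion_le_of Cardinal.aleph0_le_continuum hc fun _ => s1 _)
  let Z : ℕ → ℕ → Set (Cond (creat h2 hm) (W 𝔠)) := fun n m =>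
    {q | ∃ k, ∃ i : Fin (len F k), (st F k).1 + i = n ∧ ∀ x ∈ q.s α k, (x i : ℕ) = m}
  have hZ : ∀ n m, IsLowerSet (Z n m) := fun n m q r h ⟨k, i, e, g⟩ =>
    ⟨k, i, e, fun x hx => g x (h α k hx)⟩
  have hX : ∀ n m q, P.e q ≤ P.ro (Den (Z n m)) ↔ q ∈ Den (Z n m) := fun n m =>
    P.le_ro (reg_den _)
  refine ⟨fun n m => P.ro (Den (Z n m)), fun n => top_le_iff.mp (P.le_of fun q _ =>
    (P.le_iSup_iff q _).mpr fun r _ => ?_), fun n m m' h => ?_, fun i p hp h l => ?_⟩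
  · obtain ⟨k, i, e⟩ := exists_block (F := F) n
    obtain ⟨x, hx⟩ := r.ne α k
    obtain ⟨t, t1, t2, -⟩ := r.exists_set α k (singleton_nonempty x) (singleton_subset_iff.mpr hx)
    exact ⟨t, t1, x i, (hX _ _ _).mpr (mem_den (hZ _ _) ⟨k, i, e, fun y hy => by
      rw [t2] at hy; rw [hy]⟩)⟩
  · by_contra hc
    obtain ⟨q, hq⟩ := P.dense _ hc
    obtain ⟨r, r1, r2⟩ := (hX _ _ _).mp (hq.trans inf_le_left) q le_rfl
    obtain ⟨t, t1, k', i', e', g'⟩ := (hX _ _ _).mp (hq.trans inf_le_right) r r1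
    obtain ⟨k, i, e, g⟩ := hZ _ _ t1 r2
    obtain rfl := block_unique (e.trans e'.symm)
    obtain rfl : i = i' := Fin.ext (Nat.add_left_cancel (e.trans e'.symm))
    obtain ⟨x, hx⟩ := t.ne α k
    exact h ((g x hx).symm.trans (g' x hx))
  · obtain ⟨q, hq⟩ := P.dense p hp
    obtain ⟨k, k1, k2⟩ := q.lim α 0 l
    obtain ⟨r, r1, y, hy⟩ := dense_upto (K' := fun n => Fin (F n))
      (A := fun n m => P.pts (Y i n m)) (fun n m => (P.reg_pts _).1) (q := q)
      (fun n => (P.le_iSup_iff q _).mp (hq.trans (h n))) (st F (k + 1)).1 q le_rfl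
    obtain ⟨x, hx, h4⟩ := k2
      {fun j : Fin (len F k) => y ⟨(st F k).1 + j, Nat.add_lt_add_left j.2 _⟩} (by simp)
    obtain ⟨j, hj⟩ := h4 _ (Finset.mem_singleton_self _)
    obtain ⟨t, t1, t2, -⟩ := q.exists_set α k (singleton_nonempty x) (singleton_subset_iff.mpr hx)
    have g1 : Cond.glue {α} t r ≤ q := fun β k => by
      by_cases hβ : β ∈ ({α} : Set _)
      · rw [Cond.glue_pos _ _ hβ]; exact t1 β k
      · rw [Cond.glue_neg _ _ hβ]; exact r1 β k
    refine ⟨(st F k).1 + j, (k1.trans (s_mono F).le_apply).trans (Nat.le_add_right _ _), x j,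
      fun h0 => P.ne_bot (Cond.glue {α} t r) (le_bot_iff.mp (le_trans (le_inf (le_inf
        ((P.mono g1).trans hq) ((hX _ _ _).mpr (mem_den (hZ _ _) ⟨k, j, rfl, fun z hz => ?_⟩)))
        (s2 _ r _ (fun β hβ => Cond.glue_neg _ _ fun e => ?_) ?_)) h0.le))⟩
    · rw [Cond.glue_pos _ _ (mem_singleton α), t2] at hz
      rw [hz]
    · exact (hα β (mem_iUnion.mpr ⟨(i, _, _), hβ⟩)).ne e
    · rw [hj]
      exact mem_iInter.mp hy ⟨_, Nat.add_lt_add_left j.2 _⟩

theorem exists_algebra (h2 : ∀ n, 2 ≤ F n) (hm : Monotone F) :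
    ∃ (B : Type) (_ : CompleteBooleanAlgebra B), (⊤ : B) ≠ ⊥ ∧
    Evade B (GG F) ∧ Meet B F := by
  obtain ⟨P⟩ := exists_pres (Q := Cond (creat h2 hm) (W 𝔠))
  exact ⟨_, _, fun h => P.ne_bot (Classical.arbitrary _) (le_bot_iff.mp (h ▸ le_top)),
    evade h2 hm P, meet h2 hm P⟩

end Pool.Agent.P.MP_081461_lc
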