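import Pool.Agent.P.MP_b10269_lc.H21.Defs

/-! The notions of the problem, read inside a structure `(M, E)` for the language of set theory. -/

namespace Pool.Agent.P.MP_081461_lc

open Pool.Agent.P.MP_54b694_lc

universe u

/-- An order function: computable, with values at least `2`, non-decreasing and unbounded. -/
def OrderFn (h : ℕ → ℕ) : Prop :=
  Computable h ∧ (∀ n, 2 ≤ h n) ∧ Monotone h ∧ ∀ k, ∃ n, k ≤ h n

variable {M : Type u} (E : M → M → Prop)

/-- `x` is the von Neumann numeral of `n`: `0 = ∅` and `n + 1 = n ∪ {n}`. -/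
def Num (n : ℕ) : M → Prop :=
  Nat.rec (fun x => ∀ y, ¬ E y x) (fun _ P x => ∃ z, P z ∧ ∀ y, E y x ↔ E y z ∨ y = z) n

/-- `w` is the least inductive set `ω`. -/
def IsOmega (w : M) : Prop := IsInductive E w ∧ ∀ w', IsInductive E w' → ∀ x, E x w → E x w'

/-- `x` is a function from `w` to `w`. -/
def IsFn (w x : M) : Prop :=
  (∀ p, E p x → ∃ a b, E a w ∧ E b w ∧ IsOPair E p a b) ∧ (∀ a, E a w → ∃ b, Rel E x a b) ∧
    ∀ a b b', Rel E x a b → Rel E x a b' → b = b'

/-- `f` is a function from `w` to `w` that sends the numeral of `n` to the numeral of `F n`. -/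
def Codes (w f : M) (F : ℕ → ℕ) : Prop :=
  IsFn E w f ∧ ∀ n a b, Num E n a → Num E (F n) b → Rel E f a b

/-- `y ∈ ∏ f`: a function from `w` to `w` with `y(n) < f(n)` for all `n`. -/
def InProd (w f y : M) : Prop := IsFn E w y ∧ ∀ n a b, Rel E y n a → Rel E f n b → E a b

/-- `x ≠* y`: for some `m ∈ w`, `x(n) ≠ y(n)` for all `n > m`. -/
def EvDiff (w x y : M) : Prop := ∃ m, E m w ∧ ∀ n a, E m n → Rel E x n a → ¬ Rel E y n a

/-- `D ⊆ ∏ f`, and every function from `w` to `w` is eventually different from a member of `D`. -/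
def Dom (w f D : M) : Prop :=
  (∀ y, E y D → InProd E w f y) ∧ ∀ x, IsFn E w x → ∃ y, E y D ∧ EvDiff E w x y

end Pool.Agent.P.MP_081461_lc
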