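import Pool.Agent.P.MP_54b694_lc.ZFC
import Pool.Agent.P.MP_081461_lc.Defs

/-! A countable elementary submodel of a quotient model whose natural numbers are standard. -/

namespace Pool.Agent.P.MP_081461_lc

open Pool.Agent.P.MP_54b694_lc Pool.Agent.P.MP_b10269_lc.H21

/-- formulas with de Bruijn indices -/
inductive Fm : Type
  | mem : ℕ → ℕ → Fm
  | eq : ℕ → ℕ → Fm
  | bot : Fm
  | imp : Fm → Fm → Fm
  | all : Fm → Fm

/-- extend an assignment -/
def cns {α : Type*} (x : α) (v : ℕ → α) (n : ℕ) : α := Nat.rec x (fun n _ => v n) n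

theorem comp_cns {α β : Type*} (f : α → β) (x : α) (v : ℕ → α) :
    (fun n => f (cns x v n)) = cns (f x) fun n => f (v n) := by
  funext n; cases n <;> rfl

/-- satisfaction -/
def SatD {M : Type 1} (E : M → M → Prop) (φ : Fm) : (ℕ → M) → Prop :=
  Fm.rec (motive := fun _ => (ℕ → M) → Prop)
    (fun i j v => E (v i) (v j)) (fun i j v => v i = v j) (fun _ => False)
    (fun _ _ p q v => p v → q v) (fun _ p v => ∀ x, p (cns x v)) φ

/-- properties of assignments in arbitrary structures -/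
abbrev Pr : Type 2 := ∀ M : Type 1, (M → M → Prop) → (ℕ → M) → Prop

/-- expressed by one formula in every structure -/
class Df (P : Pr) : Prop where
  out : ∃ φ : Fm, ∀ M E v, P M E v ↔ SatD E φ v

namespace Df

variable {P Q : Pr}

theorem congr (h : Df P) (H : ∀ M E v, Q M E v ↔ P M E v) : Df Q := by
  obtain ⟨φ, h⟩ := h
  exact ⟨φ, fun M E v => (H M E v).trans (h M E v)⟩

instance mem (i j : ℕ) : Df (fun _ E v => E (v i) (v j)) := ⟨.mem i j, fun _ _ _ => Iff.rfl⟩

instance eq (i j : ℕ) : Df (fun _ _ v => v i = v j) := ⟨.eq i j, fun _ _ _ => Iff.rfl⟩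

theorem bot : Df (fun _ _ _ => False) := ⟨.bot, fun _ _ _ => Iff.rfl⟩

instance imp [h1 : Df P] [h2 : Df Q] : Df (fun M E v => P M E v → Q M E v) := by
  obtain ⟨φ, h1⟩ := h1
  obtain ⟨ψ, h2⟩ := h2
  exact ⟨.imp φ ψ, fun M E v => imp_congr (h1 M E v) (h2 M E v)⟩

instance all {R : ∀ M : Type 1, (M → M → Prop) → (ℕ → M) → M → Prop}
    [h : Df (fun M E v => R M E (fun n => v (n + 1)) (v 0))] :
    Df (fun M E v => ∀ x, R M E v x) := by
  obtain ⟨φ, h⟩ := h
  exact ⟨.all φ, fun M E v => forall_congr' fun x => h M E (cns x v)⟩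

instance not [Df P] : Df (fun M E v => ¬ P M E v) := @imp _ _ _ bot

instance and [Df P] [Df Q] : Df (fun M E v => P M E v ∧ Q M E v) :=
  (inferInstance : Df (fun M E v => ¬ (P M E v → ¬ Q M E v))).congr (fun _ _ _ => by tauto)

instance or [Df P] [Df Q] : Df (fun M E v => P M E v ∨ Q M E v) :=
  (inferInstance : Df (fun M E v => ¬ P M E v → Q M E v)).congr (fun _ _ _ => by tauto)

instance iff [Df P] [Df Q] : Df (fun M E v => P M E v ↔ Q M E v) :=
  (inferInstance : Df (fun M E v => (P M E v → Q M E v) ∧ (Q M E v → P M E v))).congr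
    (fun _ _ _ => iff_def)

instance ex {R : ∀ M : Type 1, (M → M → Prop) → (ℕ → M) → M → Prop}
    [h : Df (fun M E v => R M E (fun n => v (n + 1)) (v 0))] :
    Df (fun M E v => ∃ x, R M E v x) :=
  (@not _ (all (R := fun M E v x => ¬ R M E v x) (h := @not _ h))).congr (fun _ _ _ => by simp)

theorem sat (φ : Fml) : ∀ ρ : ℕ → ℕ, Df (fun _ E v => Sat E φ fun n => v (ρ n)) := by
  induction φ with
  | mem i j => exact fun ρ => mem _ _
  | eq i j => exact fun ρ => eq _ _
  | bot => exact fun _ => bot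
  | imp a b h1 h2 => exact fun ρ => @imp _ _ (h1 ρ) (h2 ρ)
  | all i a ih =>
    exact fun ρ => all (R := fun _ E v x => Sat E a (Function.update (fun n => v (ρ n)) i x))
      (h := (ih (Function.update (fun n => ρ n + 1) i 0)).congr fun _ E v =>
        iff_of_eq (congrArg (Sat E a) (Function.comp_update v (fun n => ρ n + 1) i 0).symm))

instance sat₁ (φ : Fml) (ρ : ℕ → ℕ) (i k : ℕ) :
    Df (fun _ E v => Sat E φ (Function.update (fun n => v (ρ n)) i (v k))) :=
  (sat φ (Function.update ρ i k)).congr fun _ E v =>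
    iff_of_eq (congrArg (Sat E φ) (Function.comp_update v ρ i k).symm)

instance sat₂ (φ : Fml) (ρ : ℕ → ℕ) (i j k l : ℕ) : Df (fun _ E v => Sat E φ
    (Function.update (Function.update (fun n => v (ρ n)) i (v k)) j (v l))) :=
  (sat₁ φ (Function.update ρ i k) j l).congr fun _ E v => iff_of_eq (congrArg
    (fun w => Sat E φ (Function.update w j (v l))) (Function.comp_update v ρ i k).symm)

instance num (n : ℕ) : ∀ i, Df (fun _ E v => Num E n (v i)) := by
  induction n with
  | zero => exact fun i => (inferInstance : Df fun _ E v => ∀ y, ¬ E y (v i))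
  | succ n ih =>
    exact fun i => (inferInstance :
      Df fun _ E v => ∃ z, Num E n z ∧ ∀ y, E y (v i) ↔ E y z ∨ y = z)

instance (i : ℕ) : Df (fun _ E v => IsInductive E (v i)) := by unfold IsInductive; infer_instance

instance (i : ℕ) : Df (fun _ E v => IsOmega E (v i)) := by unfold IsOmega; infer_instance

instance (i j k : ℕ) : Df (fun _ E v => IsOPair E (v i) (v j) (v k)) := by
  unfold IsOPair; infer_instance

instance (i j k : ℕ) : Df (fun _ E v => Rel E (v i) (v j) (v k)) := by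
  unfold MP_54b694_lc.Rel; infer_instance

instance (i j : ℕ) : Df (fun _ E v => CardLE E (v i) (v j)) := by
  unfold CardLE IsInjection; infer_instance

instance (i j : ℕ) : Df (fun _ E v => IsFn E (v i) (v j)) := by unfold IsFn; infer_instance

instance (i j k : ℕ) : Df (fun _ E v => InProd E (v i) (v j) (v k)) := by
  unfold InProd; infer_instance

instance (i j k : ℕ) : Df (fun _ E v => EvDiff E (v i) (v j) (v k)) := by
  unfold EvDiff; infer_instance

instance (i j k : ℕ) : Df (fun _ E v => Dom E (v i) (v j) (v k)) := by unfold Dom; infer_instance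

instance (i j k : ℕ) : Df (fun _ E v => IsLeastCard E (Dom E (v i) (v j)) (v k)) := by
  unfold IsLeastCard; infer_instance

end Df

variable {B : Type} [CompleteBooleanAlgebra B]

theorem rep_satD (φ : Fm) : ∀ v : ℕ → Name B,
    Rep (fun U => SatD (mem U) φ (fun n => mk U (v n))) := by
  induction φ with
  | mem i j => exact fun v => Rep.mem _ _
  | eq i j => exact fun v => Rep.eq _ _
  | bot => exact fun v => Rep.false
  | imp φ ψ h1 h2 => exact fun v => (h1 v).imp (h2 v)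
  | all φ ih =>
    intro v
    refine Rep.all (P := fun U x => SatD (mem U) φ (cns x fun n => mk U (v n))) (fun x => ?_)
    simp only [← comp_cns]
    exact ih _

theorem repDf (P : Pr) [h : Df P] (v : ℕ → Name B) :
    Rep (fun U => P (Mod U) (mem U) fun n => mk U (v n)) := by
  obtain ⟨φ, h⟩ := h
  simp only [h]
  exact rep_satD φ v

/-- a code of a formula -/
noncomputable def code (φ : Fm) : ℕ :=
  Fm.rec (fun i j => Nat.pair 0 (Nat.pair i j)) (fun i j => Nat.pair 1 (Nat.pair i j))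
    (Nat.pair 2 0) (fun _ _ a b => Nat.pair 3 (Nat.pair a b)) (fun _ a => Nat.pair 4 a) φ

theorem code_inj (φ : Fm) : ∀ ψ, code φ = code ψ → φ = ψ := by
  induction φ with
  | mem i j => intro ψ h; cases ψ <;> simp_all [code]
  | eq i j => intro ψ h; cases ψ <;> simp_all [code]
  | bot => intro ψ h; cases ψ <;> simp_all [code]
  | imp a b h1 h2 =>
    intro ψ h
    cases ψ <;> simp only [code, Nat.pair_eq_pair, true_and] at h <;> try omega
    rw [h1 _ h.1, h2 _ h.2]
  | all a h1 =>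
    intro ψ h
    cases ψ <;> simp only [code, Nat.pair_eq_pair, true_and] at h <;> try omega
    rw [h1 _ h]

instance : Countable Fm := Function.Injective.countable (f := code) fun φ ψ => code_inj φ ψ

theorem fin_dep (φ : Fm) : ∃ k, ∀ (M : Type 1) (E : M → M → Prop) (v w : ℕ → M),
    (∀ n < k, v n = w n) → (SatD E φ v ↔ SatD E φ w) := by
  induction φ with
  | mem i j =>
    exact ⟨i + j + 1, fun _ E v w h =>
      iff_of_eq (congrArg₂ E (h i (by omega)) (h j (by omega)))⟩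
  | eq i j =>
    exact ⟨i + j + 1, fun _ E v w h =>
      iff_of_eq (congrArg₂ Eq (h i (by omega)) (h j (by omega)))⟩
  | bot => exact ⟨0, fun _ _ _ _ _ => Iff.rfl⟩
  | imp a b h1 h2 =>
    obtain ⟨k, h1⟩ := h1
    obtain ⟨m, h2⟩ := h2
    exact ⟨k + m, fun M E v w h => imp_congr (h1 M E v w fun n hn => h n (by omega))
      (h2 M E v w fun n hn => h n (by omega))⟩
  | all a h1 =>
    obtain ⟨k, h1⟩ := h1
    refine ⟨k, fun M E v w h => forall_congr' fun x => h1 M E _ _ fun n hn => ?_⟩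
    cases n
    exacts [rfl, h _ (by omega)]

theorem exists_hull (A : Set (Name B)) (hA : A.Countable) : ∃ S : Set (Name B), S.Countable ∧
    A ⊆ S ∧ ∀ (φ : Fm) (v : ℕ → Name B), (∀ n, v n ∈ S) → ∃ u ∈ S, ∀ U : Ultra B,
      SatD (mem U) φ (cns (mk U u) fun n => mk U (v n)) →
        ∀ x, SatD (mem U) φ (cns x fun n => mk U (v n)) := by
  have h0 : ∀ (φ : Fm) (s : List (Name B)), ∃ u, ∀ U : Ultra B,
      (∃ x, ¬ SatD (mem U) φ (cns x fun n => mk U (s.getD n omegaN))) →
        ¬ SatD (mem U) φ (cns (mk U u) fun n => mk U (s.getD n omegaN)) := fun φ s =>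
    Rep.witness fun x => by
      simp only [← comp_cns]
      exact (rep_satD φ _).not
  choose sk hsk using h0
  let St : ℕ → Set (Name B) := Nat.rec A fun _ C =>
    C ∪ (fun p : Fm × List C => sk p.1 (p.2.map Subtype.val)) '' Set.univ
  have hm : Monotone St := monotone_nat_of_le_succ fun _ => Set.subset_union_left
  refine ⟨⋃ n, St n, Set.countable_iUnion fun n => ?_, Set.subset_iUnion St 0, fun φ v hv => ?_⟩
  · induction n with
    | zero => exact hA
    | succ n ih =>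
      have := ih.to_subtype
      exact ih.union (Set.countable_univ.image _)
  · obtain ⟨k, hk⟩ := fin_dep φ
    choose m hm' using fun n => Set.mem_iUnion.mp (hv n)
    let s : List ↥(St ((Finset.range k).sup m)) := List.ofFn fun i : Fin k =>
      ⟨v i, hm (Finset.le_sup (Finset.mem_range.mpr i.2)) (hm' i)⟩
    have h1 : ∀ (U : Ultra B) x, SatD (mem U) φ (cns x fun n => mk U (v n)) ↔
        SatD (mem U) φ (cns x fun n => mk U ((s.map Subtype.val).getD n omegaN)) :=
      fun U x => hk _ _ _ _ fun n hn => by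
        cases n with
        | zero => rfl
        | succ n => exact congrArg (mk U) (by simp [s, Nat.lt_of_succ_lt hn])
    refine ⟨_, Set.mem_iUnion.mpr ⟨_ + 1, Or.inr ⟨(φ, s), trivial, rfl⟩⟩, fun U h x => ?_⟩
    rw [h1] at h ⊢
    exact not_not.mp fun g => hsk φ _ U ⟨x, g⟩ h

theorem exists_generic (hB : (⊤ : B) ≠ ⊥) (f : ℕ → ℕ → B) :
    ∃ U : Ultra B, ∀ k, U.s (⨆ i, f k i) → ∃ i, U.s (f k i) := by
  have h0 : ∀ k (p : {p : B // p ≠ ⊥}), ∃ q : {p : B // p ≠ ⊥}, q ≤ p ∧
      (q.1 ≤ (⨆ i, f k i)ᶜ ∨ ∃ i, q.1 ≤ f k i) := fun k p => by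
    by_cases h : p.1 ⊓ ⨆ i, f k i = ⊥
    · exact ⟨p, le_rfl, Or.inl (disjoint_iff.mpr h).le_compl_right⟩
    · obtain ⟨i, r, h1, h2, h3⟩ := exists_of_le_iSup h inf_le_right
      exact ⟨⟨r, h1⟩, h2.trans inf_le_left, Or.inr ⟨i, h3⟩⟩
  choose g g1 g2 using h0
  let p : ℕ → {p : B // p ≠ ⊥} := Nat.rec ⟨⊤, hB⟩ g
  have hp : Antitone p := antitone_nat_of_succ_le fun k => g1 k _
  let J : Order.Ideal B := ⟨⟨{b | ∃ k, b ≤ (p k).1ᶜ}, fun _ _ h ⟨k, hk⟩ => ⟨k, h.trans hk⟩⟩,
    ⟨⊥, 0, bot_le⟩, fun a ⟨k, hk⟩ b ⟨l, hl⟩ => ⟨_, ⟨max k l, le_rfl⟩,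
      hk.trans (compl_le_compl (hp (le_max_left k l))),
      hl.trans (compl_le_compl (hp (le_max_right k l)))⟩⟩
  obtain ⟨I, hle, hI⟩ := (Order.Ideal.isProper_of_notMem (I := J) (p := ⊤) fun ⟨k, hk⟩ =>
    (p k).2 (by simpa using hk)).exists_le_maximal
  have hpr : I.IsPrime := Order.Ideal.IsMaximal.isPrime
  have htop : ∀ a, a ∈ I → aᶜ ∉ I := fun a h1 h2 =>
    hI.toIsProper.top_notMem (sup_compl_eq_top (x := a) ▸ Order.Ideal.sup_mem h1 h2)
  let U : Ultra B := ⟨fun b => b ∉ I, hI.toIsProper.top_notMem, fun h => h I.bot_mem,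
    fun hab ha hb => ha (I.lower hab hb), fun ha hb hab => (hpr.mem_or_mem hab).elim ha hb,
    fun a => or_iff_not_imp_left.mpr fun h => htop a (not_not.mp h)⟩
  have hU : ∀ k, U.s (p k).1 := fun k h => htop _ h (hle ⟨k, le_rfl⟩)
  refine ⟨U, fun k h => (g2 k (p k)).elim (fun h' => ?_) (Exists.imp fun i h' => ?_)⟩
  · exact absurd h (U.compl_iff.mp (U.mono h' (hU (k + 1))))
  · exact U.mono h' (hU (k + 1))

theorem exists_omega_model (hB : (⊤ : B) ≠ ⊥) (a : ℕ → Name B) :
    ∃ (U : Ultra B) (M : Type 1) (E : M → M → Prop) (j : M → Mod U),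
      (∀ (P : Pr) [Df P] (v : ℕ → M), P M E v ↔ P (Mod U) (mem U) fun n => j (v n)) ∧
      (∀ n, ∃ z, j z = mk U (a n)) ∧
      ∀ z, mem U (j z) (mk U omegaN) → ∃ n, j z = mk U (natN n) := by
  obtain ⟨S, s1, s2, s3⟩ := exists_hull (Set.range a) (Set.countable_range a)
  obtain ⟨e, he⟩ := s1.exists_eq_range ⟨_, s2 ⟨0, rfl⟩⟩
  obtain ⟨U, hU⟩ := exists_generic hB fun k i => ⊤ ⊓ Name.beq (e k) (natN i)
  refine ⟨U, {z : Mod U // ∃ x ∈ S, mk U x = z}, fun x y => mem U x.1 y.1, Subtype.val,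
    fun P h v => ?_, fun n => ⟨⟨_, _, s2 ⟨n, rfl⟩, rfl⟩, rfl⟩, ?_⟩
  · obtain ⟨φ, h⟩ := h
    rw [h, h]
    clear h
    induction φ generalizing v with
    | mem i j => rfl
    | eq i j => exact Subtype.ext_iff
    | bot => rfl
    | imp φ ψ h1 h2 => exact imp_congr (h1 v) (h2 v)
    | all φ ih =>
      refine ⟨fun h => ?_, fun h x => (ih _).mpr (by rw [comp_cns]; exact h x.1)⟩
      choose w hw e' using fun n => (v n).2
      obtain ⟨u, hu, g⟩ := s3 φ w hw
      have h' := (ih _).mp (h ⟨_, u, hu, rfl⟩)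
      rw [comp_cns] at h'
      simp only [← e'] at h' ⊢
      exact g U h'
  · rintro ⟨_, x, hx, rfl⟩ h
    obtain ⟨k, rfl⟩ : x ∈ Set.range e := he ▸ hx
    exact (hU k h).imp fun i hi => mk_eq.mpr (U.mono inf_le_right hi)

theorem isZFC_of {M N : Type 1} {E : M → M → Prop} {F : N → N → Prop} {j : M → N}
    (h : ∀ (P : Pr) [Df P] (v : ℕ → M), P M E v ↔ P N F fun n => j (v n)) (z : M)
    (hN : IsZFC F) : IsZFC E := by
  obtain ⟨h1, h2, h3, h4, h5, h6, h7, h8, h9⟩ := hN
  refine ⟨(h (fun _ E _ => ∀ a b, (∀ x, E x a ↔ E x b) → a = b) fun _ => z).mpr h1,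
    (h (fun _ E _ => ∀ a, (∃ x, E x a) → ∃ x, E x a ∧ ∀ y, E y x → ¬ E y a) fun _ => z).mpr h2,
    (h (fun _ E _ => ∀ a b, ∃ c, ∀ x, E x c ↔ x = a ∨ x = b) fun _ => z).mpr h3,
    (h (fun _ E _ => ∀ a, ∃ c, ∀ x, E x c ↔ ∃ y, E y a ∧ E x y) fun _ => z).mpr h4,
    (h (fun _ E _ => ∀ a, ∃ c, ∀ x, E x c ↔ ∀ y, E y x → E y a) fun _ => z).mpr h5,
    (h (fun _ E _ => ∃ w, IsInductive E w) fun _ => z).mpr h6,
    fun φ v i => (h (fun _ E v => ∀ a, ∃ b, ∀ x, E x b ↔ E x a ∧
      Sat E φ (Function.update (fun n => v n) i x)) v).mpr (h7 φ _ i),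
    fun φ v i k => (h (fun _ E v => ∀ a, (∀ x, E x a → ∃ y,
        Sat E φ (Function.update (Function.update (fun n => v n) i x) k y) ∧ ∀ y',
        Sat E φ (Function.update (Function.update (fun n => v n) i x) k y') → y' = y) →
      ∃ b, ∀ y, E y b ↔ ∃ x, E x a ∧
        Sat E φ (Function.update (Function.update (fun n => v n) i x) k y)) v).mpr (h8 φ _ i k),
    (h (fun _ E _ => ∀ a, (∀ x, E x a → ∃ z, E z x) →
      (∀ x y z, E x a → E y a → E z x → E z y → x = y) → ∃ c, ∀ x, E x a →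
        ∃ z, (E z x ∧ E z c) ∧ ∀ y, E y x ∧ E y c → y = z) fun _ => z).mpr h9⟩

end Pool.Agent.P.MP_081461_lc
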