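import Pool.Agent.P.MP_b10269_lc.H21.BVa
import Pool.Agent.P.MP_081461_lc.Force
import Pool.Agent.P.MP_081461_lc.Hull

/-! The two cardinals in the quotient models. -/

namespace Pool.Agent.P.MP_081461_lc

open Pool.Agent.P.MP_54b694_lc Pool.Agent.P.MP_b10269_lc.H21
open scoped Cardinal

variable {B : Type} [CompleteBooleanAlgebra B]

theorem num_iff (U : Ultra B) (n : ℕ) : ∀ x, Num (mem U) n x ↔ x = mk U (natN n) := by
  induction n with
  | zero =>
    exact fun x => ⟨fun h => mod_ext U _ _ fun y => iff_of_false (h y) (not_mem_zero U y),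
      fun h => h ▸ not_mem_zero U⟩
  | succ n ih =>
    exact fun x => ⟨fun ⟨z, h1, h2⟩ => mod_ext U _ _ fun y => by
      rw [h2, (ih z).mp h1, natN, mem_succN], fun h => ⟨_, (ih _).mpr rfl, h ▸ mem_succN U _⟩⟩

theorem lt_of_natN_mem (U : Ultra B) {m n : ℕ} (h : mem U (mk U (natN m)) (mk U (natN n))) :
    m < n := by
  induction n with
  | zero => exact absurd h (not_mem_zero U _)
  | succ n ih =>
    exact ((mem_succN U _ _).mp h).elim (fun h => (ih h).trans n.lt_succ_self)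
      fun h => natN_inj U h ▸ m.lt_succ_self

theorem natN_sub (U : Ultra B) {m n : ℕ} (h : m ≤ n) {a : Mod U} (ha : mem U a (mk U (natN m))) :
    mem U a (mk U (natN n)) := by
  induction h with
  | refl => exact ha
  | step _ ih => exact (mem_succN U _ _).mpr (Or.inl ih)

/-- the name of a relation on the natural numbers -/
def fnN (X : ℕ → ℕ → B) : Name B :=
  Name.mk (ℕ × ℕ) (fun z => opair (natN z.1) (natN z.2)) fun z => X z.1 z.2

theorem of_rel_fnN {X : ℕ → ℕ → B} {P : ∀ U : Ultra B, Mod U → Mod U → Prop}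
    (hP : ∀ x x', Rep (fun U => P U (mk U x) (mk U x')))
    (H : ∀ n m U, U.s (X n m) → P U (mk U (natN n)) (mk U (natN m))) (U : Ultra B)
    {x x' : Mod U} (h : Rel (mem U) (mk U (fnN X)) x x') : P U x x' :=
  of_rel_mk hP (fun z : ℕ × ℕ => H z.1 z.2) U x x' h

theorem rel_fnN {U : Ultra B} {X : ℕ → ℕ → B} {n m : ℕ} (h : U.s (X n m)) :
    Rel (mem U) (mk U (fnN X)) (mk U (natN n)) (mk U (natN m)) :=
  rel_mk_of (y := fun z : ℕ × ℕ => natN z.1) (z := fun z => natN z.2) (n, m) h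

theorem isFn_fnN {X : ℕ → ℕ → B} (h1 : ∀ n, ⨆ m, X n m = ⊤)
    (h2 : ∀ n m m', m ≠ m' → X n m ⊓ X n m' = ⊥) (U : Ultra B) :
    IsFn (mem U) (mk U omegaN) (mk U (fnN X)) := by
  refine ⟨of_mem_mk (P := fun V p => ∃ a b, mem V a (mk V omegaN) ∧ mem V b (mk V omegaN) ∧
      IsOPair (mem V) p a b) (fun p => Rep.ex fun a => Rep.ex fun b => (Rep.mem a _).and
        ((Rep.mem b _).and (rep_opair p a b))) (fun z V _ => ⟨_, _, natN_mem_omega V _,
          natN_mem_omega V _, isOPair_opair V _ _⟩) U,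
    of_mem_mk (P := fun V a => ∃ b, Rel (mem V) (mk V (fnN X)) a b)
      (fun a => Rep.ex fun b => rep_rel _ a b) (fun n V _ => ?_) U, fun a b b' g1 g2 => ?_⟩
  · obtain ⟨c, hc⟩ := Rep.ex (P := fun V b => Rel (mem V) (mk V (fnN X)) (mk V (natN n)) b)
      fun b => rep_rel _ _ b
    exact (hc V).mp (V.mono ((h1 n).ge.trans (iSup_le fun m => le_of_ultra fun W hW =>
      (hc W).mpr ⟨_, rel_fnN hW⟩)) V.top)
  · obtain ⟨b', rfl⟩ := mk_surj b'
    refine of_rel_fnN (P := fun V a b => Rel (mem V) (mk V (fnN X)) a (mk V b') → b = mk V b')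
      (fun a b => (rep_rel _ a b').imp (Rep.eq b b')) (fun n m V k1 k2 => ?_) U g1 g2
    refine of_rel_fnN (P := fun W a c => W.s (X n m) → mk W (natN n) = a → mk W (natN m) = c)
      (fun a c => (Rep.of_s _).imp ((Rep.eq _ a).imp (Rep.eq _ c))) (fun n' m' W l1 l2 l3 => ?_)
      V k2 k1 rfl
    obtain rfl := natN_inj W l3
    by_cases e : m = m'
    exacts [e ▸ rfl, absurd (h2 n m m' e) (W.ne_bot (W.inf l2 l1))]

/-- the values of a ground function -/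
noncomputable def gX (y : ℕ → ℕ) (n m : ℕ) : B := if m = y n then ⊤ else ⊥

theorem s_gX {U : Ultra B} {y : ℕ → ℕ} {n m : ℕ} (h : U.s (gX y n m)) : m = y n :=
  not_not.mp fun e => U.ne_bot h (if_neg e)

theorem rel_gX (U : Ultra B) (y : ℕ → ℕ) (n : ℕ) :
    Rel (mem U) (mk U (fnN (gX y))) (mk U (natN n)) (mk U (natN (y n))) :=
  rel_fnN (U.mono (if_pos rfl).ge U.top)

/-- the values of a function below `G` -/
def Good (G : ℕ → ℕ) (X : ℕ → ℕ → B) : Prop := (∀ n, ⨆ m, X n m = ⊤) ∧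
  (∀ n m m', m ≠ m' → X n m ⊓ X n m' = ⊥) ∧ ∀ n m, G n ≤ m → X n m = ⊥

theorem good_gX {G y : ℕ → ℕ} (h : ∀ n, y n < G n) : Good G (gX y : ℕ → ℕ → B) :=
  ⟨fun n => top_le_iff.mp (le_iSup_of_le (y n) (if_pos rfl).ge), fun n m m' e => by
    unfold gX; split_ifs <;> simp_all, fun n m g => if_neg ((h n).trans_le g).ne'⟩

theorem exists_val (x : Name B) : ∃ X : ℕ → ℕ → B,
    ∀ n m (U : Ultra B), U.s (X n m) ↔ Rel (mem U) (mk U x) (mk U (natN n)) (mk U (natN m)) := by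
  choose X hX using fun n m => rep_rel x (natN n) (natN m)
  exact ⟨X, hX⟩

theorem exists_value {x : Name B} {q : B} (hq : q ≠ ⊥)
    (h : Forces q fun U => IsFn (mem U) (mk U omegaN) (mk U x)) (n : ℕ) : ∃ m r, r ≠ ⊥ ∧ r ≤ q ∧
      Forces r fun U => Rel (mem U) (mk U x) (mk U (natN n)) (mk U (natN m)) := by
  obtain ⟨b, hb⟩ := Forces.ex (P := fun U b => Rel (mem U) (mk U x) (mk U (natN n)) b)
    (fun b => rep_rel x _ b) fun V hV => (h V hV).2.1 _ (natN_mem_omega V n)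
  obtain ⟨m, r, r1, r2, -, r3⟩ := Forces.refine_mem (x := b) (A := natN) (b := fun _ => ⊤) hq
    fun V hV => by
      obtain ⟨p, p1, p2⟩ := hb V hV
      obtain ⟨a', b', -, g2, g3⟩ := (h V hV).1 p p1
      exact (IsOPair.inj (mod_pair V) p2 g3).2 ▸ g2
  exact ⟨m, r, r1, r2, fun V hV =>
    (congrArg (Rel (mem V) (mk V x) _) (r3 V hV)).mp (hb V (V.mono r2 hV))⟩

theorem rep_isFn (w x : Name B) : Rep fun U => IsFn (mem U) (mk U w) (mk U x) :=
  repDf (fun _ E v => IsFn E (v 0) (v 1)) (cns w fun _ => x)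

theorem rep_inProd (w f x : Name B) : Rep fun U => InProd (mem U) (mk U w) (mk U f) (mk U x) :=
  repDf (fun _ E v => InProd E (v 0) (v 1) (v 2)) (cns w (cns f fun _ => x))

theorem rep_evDiff (w f x : Name B) : Rep fun U => EvDiff (mem U) (mk U w) (mk U f) (mk U x) :=
  repDf (fun _ E v => EvDiff E (v 0) (v 1) (v 2)) (cns w (cns f fun _ => x))

theorem rep_dom (w f x : Name B) : Rep fun U => Dom (mem U) (mk U w) (mk U f) (mk U x) :=
  repDf (fun _ E v => Dom E (v 0) (v 1) (v 2)) (cns w (cns f fun _ => x))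

theorem dom_of {G : ℕ → ℕ} {ι : Type} {Y : ι → ℕ → ℕ → B} (hY : ∀ i, Good G (Y i))
    (h : ∀ (X : ℕ → ℕ → B) (p : B), p ≠ ⊥ → (∀ n, p ≤ ⨆ m, X n m) →
      (∀ n m m', m ≠ m' → p ⊓ X n m ⊓ X n m' = ⊥) →
      ∃ q, q ≠ ⊥ ∧ q ≤ p ∧ ∃ i, ∀ n m, q ⊓ X n m ⊓ Y i n m = ⊥) (U : Ultra B) :
    Dom (mem U) (mk U omegaN) (mk U (fnN (gX G)))
      (mk U (Name.mk ι (fun i => fnN (Y i)) fun _ => ⊤)) := by
  refine ⟨of_mem_mk (P := fun V y => InProd (mem V) (mk V omegaN) (mk V (fnN (gX G))) y)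
    (rep_inProd _ _) (fun i V _ => ⟨isFn_fnN (hY i).1 (hY i).2.1 V, fun n a b g1 g2 => ?_⟩) U,
    fun x hx => ?_⟩
  · obtain ⟨b, rfl⟩ := mk_surj b
    refine of_rel_fnN (P := fun V n a => Rel (mem V) (mk V (fnN (gX G))) n (mk V b) →
      mem V a (mk V b)) (fun n a => (rep_rel _ n b).imp (Rep.mem a b)) (fun n m W k1 k2 => ?_)
      V g1 g2
    rw [(isFn_fnN (good_gX fun n => (G n).lt_succ_self).1
      (good_gX fun n => (G n).lt_succ_self).2.1 W).2.2 _ _ _ k2 (rel_gX W G n)]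
    exact natN_mem W (not_le.mp fun e => W.ne_bot k1 ((hY i).2.2 n m e))
  · obtain ⟨x, rfl⟩ := mk_surj x
    refine Rep.imp_of_dense (rep_isFn _ x) (Rep.ex (P := fun V y => mem V y
      (mk V (Name.mk ι (fun i => fnN (Y i)) fun _ => ⊤)) ∧ EvDiff (mem V) (mk V omegaN) (mk V x) y)
      fun y => (Rep.mem y _).and (rep_evDiff _ x y)) (fun p hp hF => ?_) U hx
    obtain ⟨X, hX⟩ := exists_val x
    obtain ⟨q, q1, q2, i, hi⟩ := h X p hp (fun n => le_of_dense fun r r1 r2 => by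
        obtain ⟨m, t, t1, t2, t3⟩ := exists_value r1 (hF.mono r2) n
        exact ⟨t, t1, t2, le_iSup_of_le m (le_of_ultra fun V hV => (hX n m V).mpr (t3 V hV))⟩)
      fun n m m' e => le_bot_iff.mp (le_of_ultra fun V hV => by
        rw [V.inf_iff, V.inf_iff, hX, hX] at hV
        exact absurd (natN_inj V ((hF V hV.1.1).2.2 _ _ _ hV.1.2 hV.2)) e)
    refine ⟨q, q1, q2, fun V hV => ⟨_, mem_mk_of (A := fun i => fnN (Y i)) i V.top, _,
      natN_mem_omega V 0, fun n a _ g1 g2 => ?_⟩⟩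
    exact of_rel_fnN (P := fun W n a => W.s q → ¬ Rel (mem W) (mk W x) n a)
      (fun n a => (Rep.of_s q).imp (rep_rel x n a).not) (fun n m W k1 k2 k3 =>
        W.ne_bot (W.inf (W.inf k2 ((hX n m W).mpr k3)) k1) (hi n m)) V g2 hV g1

theorem dom_mono {F G : ℕ → ℕ} (h : ∀ n, F n ≤ G n) {U : Ultra B} {D : Mod U}
    (hD : Dom (mem U) (mk U omegaN) (mk U (fnN (gX F))) D) :
    Dom (mem U) (mk U omegaN) (mk U (fnN (gX G))) D := by
  refine ⟨fun y hy => ⟨(hD.1 y hy).1, fun n a b g1 g2 => ?_⟩, hD.2⟩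
  obtain ⟨y, rfl⟩ := mk_surj y
  obtain ⟨a, rfl⟩ := mk_surj a
  refine of_rel_fnN (P := fun V n b => InProd (mem V) (mk V omegaN) (mk V (fnN (gX F))) (mk V y) →
    Rel (mem V) (mk V y) n (mk V a) → mem V (mk V a) b) (fun n b => (rep_inProd _ _ y).imp
      ((rep_rel y n a).imp (Rep.mem a b))) (fun n m V k1 k2 k3 => ?_) U g2 (hD.1 _ hy) g1
  exact natN_sub V ((h n).trans (s_gX k1).ge) (k2.2 _ _ _ k3 (rel_gX V F n))

theorem not_covered {F : ℕ → ℕ} (h : Meet B F) {ι : Type} (hι : #ι ≤ 𝔠) {q : B} (hq : q ≠ ⊥)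
    {D : Name B} (hD : Forces q fun U => Dom (mem U) (mk U omegaN) (mk U (fnN (gX F))) (mk U D))
    {u : ι → Name B} (hu : Covered q D u) : False := by
  choose Y hY using fun i => exists_val (u i)
  obtain ⟨X, x1, x2, x3⟩ := h ι hι Y
  obtain ⟨y, hy⟩ := Forces.ex
    (P := fun V y => mem V y (mk V D) ∧ EvDiff (mem V) (mk V omegaN) (mk V (fnN X)) y)
    (fun y => (Rep.mem y _).and (rep_evDiff _ _ y)) fun V hV => (hD V hV).2 _ (isFn_fnN x1 x2 V)
  obtain ⟨i, r, r1, r2, r3⟩ := hu y q hq le_rfl fun V hV => (hy V hV).1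
  have h1 : Forces r fun V => mem V (mk V (u i)) (mk V D) ∧
      EvDiff (mem V) (mk V omegaN) (mk V (fnN X)) (mk V (u i)) :=
    fun V hV => (congrArg (fun z => mem V z _ ∧ EvDiff (mem V) _ _ z) (r3 V hV)).mp
      (hy V (V.mono r2 hV))
  obtain ⟨c, hc⟩ := Forces.ex (P := fun V c => mem V c (mk V omegaN) ∧ ∀ n a, mem V c n →
      Rel (mem V) (mk V (fnN X)) n a → ¬ Rel (mem V) (mk V (u i)) n a)
    (fun c => (Rep.mem c _).and (Rep.all fun n => Rep.all fun a => (Rep.mem c n).imp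
      ((rep_rel _ n a).imp (rep_rel _ n a).not))) fun V hV => (h1 V hV).2
  obtain ⟨l, t, t1, t2, -, t3⟩ := Forces.refine_mem (x := c) (A := natN) (b := fun _ => ⊤) r1
    fun V hV => (hc V hV).1
  have h2 : Forces t fun V => InProd (mem V) (mk V omegaN) (mk V (fnN (gX F))) (mk V (u i)) :=
    fun V hV => (hD V (V.mono (t2.trans r2) hV)).1 _ (h1 V (V.mono t2 hV)).1
  obtain ⟨n, n1, m, n2⟩ := x3 i t t1 (fun n => le_of_dense fun s s1 s2 => by
    obtain ⟨m, s', k1, k2, k3⟩ := exists_value s1 (fun V hV => (h2 V (V.mono s2 hV)).1) n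
    obtain ⟨V, hV, k4⟩ := k3.exists k1
    exact ⟨s', k1, k2, le_iSup_of_le ⟨m, lt_of_natN_mem V ((h2 V (V.mono (k2.trans s2) hV)).2
      _ _ _ k4 (rel_gX V F n))⟩ (le_of_ultra fun W hW => (hY i n m W).mpr (k3 W hW))⟩) (l + 1)
  obtain ⟨V, hV⟩ := exists_ultra n2
  rw [V.inf_iff, V.inf_iff, hY] at hV
  exact (hc V (V.mono t2 hV.1.1)).2 _ _ (t3 V hV.1.1 ▸ natN_mem V n1) (rel_fnN hV.1.2) hV.2

theorem main {F G : ℕ → ℕ} (h2 : ∀ n, 2 ≤ F n) (h : ∀ n, F n ≤ G n) (hE : Evade B G)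
    (hM : Meet B F) (U : Ultra B) : ∃ a b,
      IsLeastCard (mem U) (Dom (mem U) (mk U omegaN) (mk U (fnN (gX G)))) a ∧
      IsLeastCard (mem U) (Dom (mem U) (mk U omegaN) (mk U (fnN (gX F)))) b ∧
      CardLE (mem U) a b ∧ ¬ CardLE (mem U) b a := by
  have d1 := dom_of (Y := fun y : {y : ℕ → ℕ // ∀ n, y n < G n} => (gX y.1 : ℕ → ℕ → B))
    (fun y => good_gX y.2) (fun X p p1 p2 p3 => by
      obtain ⟨q, q1, q2, y, y1, y2⟩ := hE X p p1 p2 p3
      refine ⟨q, q1, q2, ⟨y, y1⟩, fun n m => le_bot_iff.mp (le_of_ultra fun V hV => ?_)⟩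
      rw [V.inf_iff, V.inf_iff] at hV
      obtain rfl : m = y n := s_gX hV.2
      exact absurd hV.1.2 (V.compl_iff.mp (V.mono (y2 n) hV.1.1))) U
  have d2 := dom_of (G := F)
    (Y := fun (τ : ℕ → B) n m => if m = 0 then (τ n)ᶜ else if m = 1 then τ n else ⊥)
    (fun τ => ⟨fun n => top_le_iff.mp ((compl_sup_eq_top (x := τ n)).ge.trans
      (sup_le (le_iSup_of_le 0 le_rfl) (le_iSup_of_le 1 le_rfl))), fun n m m' e => by
        beta_reduce; split_ifs <;> simp_all, fun n m e =>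
        have := h2 n
        (if_neg (by omega)).trans (if_neg (by omega))⟩)
    (fun X p p1 _ p3 => ⟨p, p1, le_rfl, fun n => X n 0, fun n m => by
      split_ifs with e e'
      · rw [e, inf_assoc, inf_compl_eq_bot, inf_bot_eq]
      · exact p3 n m 0 e
      · exact inf_bot_eq _⟩) U
  obtain ⟨a, a1, a2⟩ := exists_least_card
    (Q := fun V x => Dom (mem V) (mk V omegaN) (mk V (fnN (gX G))) x) (rep_dom _ _) U ⟨_, d1⟩
  obtain ⟨b, b1, b2⟩ := exists_least_card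
    (Q := fun V x => Dom (mem V) (mk V omegaN) (mk V (fnN (gX F))) x) (rep_dom _ _) U ⟨_, d2⟩
  refine ⟨a, b, ⟨⟨a, a1, cardLE_refl U a, cardLE_refl U a⟩, a2⟩,
    ⟨⟨b, b1, cardLE_refl U b, cardLE_refl U b⟩, b2⟩, a2 b (dom_mono h b1), fun g => ?_⟩
  obtain ⟨b, rfl⟩ := mk_surj b
  obtain ⟨q, q1, -, q3⟩ := ((rep_dom _ _ b).and (rep_cardLE b _)).localize
    ⟨b1, cardLE_trans g (a2 _ d1)⟩ U.top
  obtain ⟨u, hu⟩ := cover_of_cardLE (fun V hV => (q3 V hV).2) (covered_mk q _ _)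
  exact not_covered hM ((Cardinal.mk_subtype_le _).trans (by simp)) q1 (fun V hV => (q3 V hV).1) hu

end Pool.Agent.P.MP_081461_lc
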