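import Pool.Agent.P.MP_b10269_lc.H21.Pres

/-! The countable support product of creature posets and timely reading of names. -/

namespace Pool.Agent.P.MP_081461_lc

open Set Pool.Agent.P.MP_b10269_lc.H21
open scoped Cardinal

theorem exists_seq_hist {S : Type} (R : ℕ → S → S → S → Prop) (s₀ : S)
    (h : ∀ i s u, ∃ s', R i s u s') :
    ∃ f : ℕ → S, f 0 = s₀ ∧ ∀ i, R i (f i) (f i.unpair.1) (f (i + 1)) := by
  choose nx hnx using h
  let g : ℕ → ℕ → S := Nat.rec (fun _ => s₀)
    fun i g => Function.update g (i + 1) (nx i (g i) (g i.unpair.1))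
  have hg : ∀ i l, l ≤ i → g i l = g l l := by
    intro i
    induction i with
    | zero => intro l hl; rw [Nat.le_zero.mp hl]
    | succ i ih =>
      intro l hl
      rcases hl.eq_or_lt with rfl | hl
      · rfl
      · exact (Function.update_of_ne hl.ne _ _).trans (ih l (Nat.lt_succ_iff.mp hl))
  refine ⟨fun i => g i i, rfl, fun i => ?_⟩
  have e : g (i + 1) (i + 1) = nx i (g i i) (g i i.unpair.1) := Function.update_self ..
  beta_reduce
  rw [e, hg i _ (Nat.unpair_left_le i)]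
  exact hnx _ _ _

/-- creatures with a norm that has enough bigness for the value sets `K n` -/
structure Creat (T K : ℕ → Type) [∀ k, Fintype (T k)] [∀ n, Fintype (K n)] where
  nor : ∀ k, Set (T k) → ℕ → Prop
  anti : ∀ {k C m m'}, m' ≤ m → nor k C m → nor k C m'
  full : ∀ k, nor k univ k
  ne : ∀ {k C m}, nor k C m → C.Nonempty
  big : ∀ {k C m} (j : ℕ) (_ : j ≤ k) (c : T k → ((i : Fin j) → T i) → (n : Fin k) → K n),
    nor k C (m + 1) → ∃ v, nor k {x ∈ C | c x = v} m

variable {T K : ℕ → Type} [∀ k, Fintype (T k)] [∀ n, Fintype (K n)] (N : Creat T K) (Λ : Type)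

/-- conditions -/
structure Cond where
  s : Λ → ∀ k, Set (T k)
  supp : {α | s α ≠ fun _ => univ}.Countable
  ne : ∀ α k, (s α k).Nonempty
  lim : ∀ α m l, ∃ k, l ≤ k ∧ N.nor k (s α k) m

variable {N Λ}

instance : Preorder (Cond N Λ) where
  le q p := ∀ α k, q.s α k ⊆ p.s α k
  le_refl _ _ _ := Subset.rfl
  le_trans _ _ _ h h' α k := (h α k).trans (h' α k)

theorem lim_full (m l : ℕ) : ∃ k, l ≤ k ∧ N.nor k univ m :=
  ⟨max l m, le_max_left _ _, N.anti (le_max_right _ _) (N.full _)⟩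

instance : Nonempty (Cond N Λ) :=
  ⟨⟨fun _ _ => univ, by simp, fun _ k => N.ne (N.full k), fun _ => lim_full⟩⟩

namespace Cond

open Classical in
/-- `p` on the set of coordinates `S`, `q` elsewhere -/
noncomputable def glue (S : Set Λ) (p q : Cond N Λ) : Cond N Λ where
  s α := if α ∈ S then p.s α else q.s α
  supp := (p.supp.union q.supp).mono fun α h => by
    by_cases hα : α ∈ S
    · exact Or.inl (by simpa [hα] using h)
    · exact Or.inr (by simpa [hα] using h)
  ne α k := by split_ifs; exacts [p.ne α k, q.ne α k]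
  lim α := by split_ifs; exacts [p.lim α, q.lim α]

theorem glue_pos {S : Set Λ} (p q : Cond N Λ) {α : Λ} (h : α ∈ S) : (glue S p q).s α = p.s α :=
  if_pos h

theorem glue_neg {S : Set Λ} (p q : Cond N Λ) {α : Λ} (h : α ∉ S) : (glue S p q).s α = q.s α :=
  if_neg h

open Classical in
/-- change the creatures at the positions `(a j, j)` for `j < k` -/
noncomputable def patch (q : Cond N Λ) (a : ℕ → Option Λ) (k : ℕ) (C : Λ → ∀ j, Set (T j))
    (hC : ∀ α j, (C α j).Nonempty) : Cond N Λ where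
  s α j := if j < k ∧ a j = some α then C α j else q.s α j
  supp := (q.supp.union ((countable_range a).preimage (Option.some_injective _))).mono
    fun α h => by
      by_contra hc
      simp only [mem_union, mem_preimage, mem_range, not_or, not_exists] at hc
      exact h ((funext fun j => if_neg fun h => hc.2 j h.2).trans (not_not.mp hc.1))
  ne α j := by split_ifs; exacts [hC α j, q.ne α j]
  lim α m l := by
    obtain ⟨j, h1, h2⟩ := q.lim α m (max l k)
    refine ⟨j, (le_max_left _ _).trans h1, ?_⟩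
    rwa [if_neg fun h => absurd h.1 (not_lt.mpr ((le_max_right _ _).trans h1))]

theorem patch_pos (q : Cond N Λ) {a : ℕ → Option Λ} {k : ℕ} {C : Λ → ∀ j, Set (T j)}
    (hC : ∀ α j, (C α j).Nonempty) {α : Λ} {j : ℕ} (h : j < k ∧ a j = some α) :
    (q.patch a k C hC).s α j = C α j := if_pos h

theorem patch_neg (q : Cond N Λ) {a : ℕ → Option Λ} {k : ℕ} {C : Λ → ∀ j, Set (T j)}
    (hC : ∀ α j, (C α j).Nonempty) {α : Λ} {j : ℕ} (h : ¬ (j < k ∧ a j = some α)) :
    (q.patch a k C hC).s α j = q.s α j := if_neg h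

theorem exists_set (q : Cond N Λ) (α : Λ) (k : ℕ) {C : Set (T k)} (hC : C.Nonempty)
    (h : C ⊆ q.s α k) : ∃ r ≤ q, r.s α k = C ∧ ∀ β j, j ≠ k → r.s β j = q.s β j := by
  classical
  have hne : ∀ β j, (Function.update (q.s β) k C j).Nonempty := fun β j => by
    by_cases hj : j = k
    · subst hj; rwa [Function.update_self]
    · rw [Function.update_of_ne hj]; exact q.ne β j
  have key : ∀ β j, j ≠ k → (q.patch (fun _ => some α) (k + 1) _ hne).s β j = q.s β j :=
    fun β j hj => by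
      by_cases h : j < k + 1 ∧ some α = some β
      · rw [patch_pos _ _ h, Function.update_of_ne hj]
      · rw [patch_neg _ _ h]
  have e : (q.patch (fun _ => some α) (k + 1) _ hne).s α k = C := by
    exact (if_pos ⟨k.lt_succ_self, rfl⟩).trans (Function.update_self ..)
  refine ⟨_, fun β j => ?_, e, key⟩
  by_cases hj : j = k
  · subst hj
    by_cases hβ : α = β
    · subst hβ; rwa [e]
    · rw [patch_neg _ _ fun h => hβ (Option.some_injective _ h.2)]
  · rw [key β j hj]

theorem cc : CC (Cond N Λ) 𝔠 := fun s hs => by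
  refine card_le_of_disagree (Y := ∀ k, Set (T k)) ?_ (fun t : s => {α | t.1.s α ≠ fun _ => univ})
    (fun t => t.1.supp) (fun t => t.1.s) fun t t' h => ?_
  · rw [Cardinal.mk_pi]
    refine (Cardinal.prod_le_prod _ (fun _ => ℵ₀) fun k => Cardinal.mk_le_aleph0).trans ?_
    simp
  · by_contra hc
    push Not at hc
    refine hs t.2 t'.2 (fun e => h (Subtype.ext e))
      ⟨glue {α | t.1.s α ≠ fun _ => univ} t.1 t'.1, fun α k => ?_, fun α k => ?_⟩
    · by_cases hα : α ∈ {α | t.1.s α ≠ fun _ => univ}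
      · rw [glue_pos _ _ hα]
      · rw [not_not.mp hα]; exact subset_univ _
    · by_cases hα : α ∈ {α | t.1.s α ≠ fun _ => univ}
      · rw [glue_pos _ _ hα]
        by_cases hα' : α ∈ {α | t'.1.s α ≠ fun _ => univ}
        · rw [hc α hα hα']
        · rw [not_not.mp hα']; exact subset_univ _
      · rw [glue_neg _ _ hα]

end Cond

/-- `t` extends `q` and chooses `η` at the marked positions -/
def Below (t q : Cond N Λ) (a : ℕ → Option Λ) (k : ℕ) (η : ∀ j, T j) : Prop :=
  t ≤ q ∧ ∀ j < k, ∀ α, a j = some α → t.s α j ⊆ {η j}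

theorem decide_all {I V : Type} [Finite I] [Nonempty V] (η : I → ∀ j, T j)
    (W : V → Set (Cond N Λ)) (hW : ∀ v, IsLowerSet (W v)) (q : Cond N Λ)
    (hd : ∀ r ≤ q, ∃ t ≤ r, ∃ v, t ∈ W v) (a : ℕ → Option Λ) (k : ℕ) :
    ∃ q' ≤ q, (∀ j < k, ∀ α, a j = some α → q'.s α j = q.s α j) ∧
      ∃ c : I → V, ∀ i t, Below t q' a k (η i) → t ∈ W (c i) := by
  suffices h : ∀ s : Set I, s.Finite → ∃ q' ≤ q, (∀ j < k, ∀ α, a j = some α → q'.s α j = q.s α j) ∧
      ∀ i ∈ s, ∃ v, ∀ t, Below t q' a k (η i) → t ∈ W v by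
    obtain ⟨q', h1, h2, h3⟩ := h univ (toFinite _)
    choose c hc using fun i => h3 i trivial
    exact ⟨q', h1, h2, c, hc⟩
  intro s hs
  induction s, hs using Set.Finite.induction_on with
  | empty => exact ⟨q, le_rfl, fun _ _ _ _ => rfl, fun _ h => h.elim⟩
  | @insert i s _ _ ih =>
    obtain ⟨q₁, h1, h2, h3⟩ := ih
    by_cases h : ∃ t, Below t q₁ a k (η i)
    · obtain ⟨t₀, ht₀⟩ := h
      obtain ⟨r, r1, v, r2⟩ := hd t₀ (ht₀.1.trans h1)
      have l1 : r.patch a k q₁.s q₁.ne ≤ q₁ := fun α j => by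
        by_cases h : j < k ∧ a j = some α
        · rw [Cond.patch_pos _ _ h]
        · rw [Cond.patch_neg _ _ h]; exact (r1.trans ht₀.1) α j
      refine ⟨r.patch a k q₁.s q₁.ne, l1.trans h1, fun j hj α hα =>
        (Cond.patch_pos _ _ ⟨hj, hα⟩).trans (h2 j hj α hα), ?_⟩
      rintro i' (rfl | hi)
      · refine ⟨v, fun t ht => hW v (fun α j => ?_) r2⟩
        by_cases h : j < k ∧ a j = some α
        · obtain ⟨x, hx⟩ := r.ne α j
          have e : x = η i' j := ht₀.2 j h.1 α h.2 (r1 α j hx)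
          exact (ht.2 j h.1 α h.2).trans (singleton_subset_iff.mpr (e ▸ hx))
        · exact (ht.1 α j).trans (Cond.patch_neg _ _ h).subset
      · obtain ⟨v', hv⟩ := h3 i' hi
        exact ⟨v', fun t ht => hv t ⟨ht.1.trans l1, ht.2⟩⟩
    · refine ⟨q₁, h1, h2, ?_⟩
      rintro i' (rfl | hi)
      · exact ⟨Classical.arbitrary V, fun t ht => absurd ⟨t, ht⟩ h⟩
      · exact h3 i' hi

/-- below `q` at most `b` values occur -/
def Few {V : Type} (W : V → Set (Cond N Λ)) (q : Cond N Λ) (b : ℕ) : Prop :=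
  ∃ S : Finset V, S.card ≤ b ∧ ∀ r ≤ q, ∃ t ≤ r, ∃ v ∈ S, t ∈ W v

theorem dense_upto {K' : ℕ → Type} {A : ∀ n, K' n → Set (Cond N Λ)}
    (hA : ∀ n v, IsLowerSet (A n v)) {q : Cond N Λ}
    (hd : ∀ n, ∀ r ≤ q, ∃ t ≤ r, ∃ v, t ∈ A n v) (l : ℕ) :
    ∀ r ≤ q, ∃ t ≤ r, ∃ v : (n : Fin l) → K' n, t ∈ ⋂ n : Fin l, A n (v n) := by
  intro r hr
  suffices h : ∃ t ≤ r, ∀ n < l, ∃ v, t ∈ A n v by
    obtain ⟨t, h1, h2⟩ := h
    choose v hv using h2
    exact ⟨t, h1, fun n => v n n.2, mem_iInter.mpr fun n => hv n n.2⟩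
  induction l with
  | zero => exact ⟨r, le_rfl, fun _ h => absurd h (Nat.not_lt_zero _)⟩
  | succ l ih =>
    obtain ⟨t, h1, h2⟩ := ih
    obtain ⟨u, u1, v, u2⟩ := hd l t (h1.trans hr)
    refine ⟨u, u1.trans h1, fun n hn => ?_⟩
    rcases (Nat.lt_succ_iff.mp hn).eq_or_lt with rfl | hn
    · exact ⟨v, u2⟩
    · exact (h2 n hn).imp fun v hv => hA n v u1 hv

variable {A : ∀ n, K n → Set (Cond N Λ)} (hA : ∀ n v, IsLowerSet (A n v))
include hA

theorem stage {q : Cond N Λ} (hd : ∀ n, ∀ r ≤ q, ∃ t ≤ r, ∃ v, t ∈ A n v) (k : ℕ)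
    (a : ℕ → Option Λ) (α : Λ) (m : ℕ) : ∃ q' ≤ q, ∃ l, k ≤ l ∧ ∃ a' : ℕ → Option Λ,
      (∀ j < k, a' j = a j) ∧ (∀ j < k, ∀ β, a j = some β → q'.s β j = q.s β j) ∧
      a' l = some α ∧ N.nor l (q'.s α l) m ∧
      ∀ n < l, Few (A n) q' (Fintype.card ((i : Fin k) → T i)) := by
  classical
  obtain ⟨l, hl, hn⟩ := q.lim α (m + 1) k
  let a' : ℕ → Option Λ := fun j => if j < k then a j else if j = l then some α else none
  have a1 : ∀ j < k, a' j = a j := fun j hj => if_pos hj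
  have a2 : a' l = some α := (if_neg (not_lt.mpr hl)).trans (if_pos rfl)
  have d : ∀ j, T j := fun j => (N.ne (N.full j)).some
  let ex : ((i : Fin k) → T i) → ∀ j, T j := fun ρ j => if h : j < k then ρ ⟨j, h⟩ else d j
  obtain ⟨-, -, v₀, -⟩ := dense_upto hA hd l q le_rfl
  have : Nonempty ((n : Fin l) → K n) := ⟨v₀⟩
  obtain ⟨q₁, h1, h2, c, hc⟩ := decide_all
    (fun z : ((i : Fin k) → T i) × T l => Function.update (ex z.1) l z.2)
    (fun v : (n : Fin l) → K n => ⋂ n : Fin l, A n (v n))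
    (fun v => isLowerSet_iInter fun n => hA n _) q (dense_upto hA hd l) a' (l + 1)
  obtain ⟨w, hw⟩ := N.big k hl (fun x ρ => c (ρ, x)) hn
  rw [← h2 l l.lt_succ_self α a2] at hw
  obtain ⟨q₂, g1, g2, g3⟩ := q₁.exists_set α l (N.ne hw) (sep_subset _ _)
  refine ⟨q₂, g1.trans h1, l, hl, a', a1, fun j hj β hβ => ?_, a2, g2 ▸ hw, fun n hn => ?_⟩
  · rw [g3 β j (by omega), h2 j (by omega) β ((a1 j hj).trans hβ)]
  · refine ⟨Finset.univ.image fun ρ => w ρ ⟨n, hn⟩, Finset.card_image_le, fun r hr => ?_⟩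
    choose x hx using r.ne
    let ρ : (i : Fin k) → T i := fun i => (a i).elim (d i) fun β => x β i
    have l1 : r.patch a' (l + 1) (fun β j => {x β j}) (fun _ _ => singleton_nonempty _) ≤ r :=
      fun β j => by
        by_cases h : j < l + 1 ∧ a' j = some β
        · rw [Cond.patch_pos _ _ h]; exact singleton_subset_iff.mpr (hx β j)
        · rw [Cond.patch_neg _ _ h]
    refine ⟨_, l1, w ρ ⟨n, hn⟩, Finset.mem_image_of_mem _ (Finset.mem_univ ρ), ?_⟩
    have e : c (ρ, x α l) = w ρ := congrFun (g2 ▸ hr α l (hx α l) :).2 ρ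
    rw [← e]
    refine mem_iInter.mp (hc (ρ, x α l) _ ⟨(l1.trans hr).trans g1, fun j hj β hβ => ?_⟩) ⟨n, hn⟩
    rw [Cond.patch_pos _ _ ⟨hj, hβ⟩, singleton_subset_singleton]
    by_cases hk : j < k
    · rw [Function.update_of_ne (by omega)]
      simp only [ex, ρ, dif_pos hk, (a1 j hk).symm.trans hβ, Option.elim_some]
    · by_cases hjl : j = l
      · subst hjl
        rw [Function.update_self, Option.some_injective _ (a2.symm.trans hβ)]
      · simp [a', hk, hjl] at hβ

theorem timely [Nonempty Λ] {p : Cond N Λ} (hd : ∀ n, ∀ r ≤ p, ∃ t ≤ r, ∃ v, t ∈ A n v) :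
    ∃ q ≤ p, ∀ n, Few (A n) q (Fintype.card ((i : Fin (n + 1)) → T i)) := by
  classical
  choose en hen using fun q : Cond N Λ =>
    (q.supp.insert (Classical.arbitrary Λ)).exists_eq_range (insert_nonempty _ _)
  obtain ⟨f, f0, hf⟩ := exists_seq_hist (S := {q // q ≤ p} × ℕ × (ℕ → Option Λ))
    (fun i s u s' => s'.1.1 ≤ s.1.1 ∧ ∃ l, s.2.1 ≤ l ∧ s'.2.1 = l + 1 ∧
      (∀ j < s.2.1, s'.2.2 j = s.2.2 j) ∧
      (∀ j < s.2.1, ∀ β, s.2.2 j = some β → s'.1.1.s β j = s.1.1.s β j) ∧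
      s'.2.2 l = some (en u.1.1 i.unpair.2.unpair.1) ∧
      N.nor l (s'.1.1.s (en u.1.1 i.unpair.2.unpair.1) l) i ∧
      ∀ n < l, Few (A n) s'.1.1 (Fintype.card ((i : Fin s.2.1) → T i)))
    (⟨p, le_rfl⟩, 0, fun _ => none) fun i s u => by
      obtain ⟨q', h1, l, h2, a', h3⟩ := stage hA (q := s.1.1)
        (fun n r hr => hd n r (hr.trans s.1.2)) s.2.1 s.2.2 (en u.1.1 i.unpair.2.unpair.1) i
      exact ⟨(⟨q', h1.trans s.1.2⟩, l + 1, a'), h1, l, h2, rfl, h3⟩
  have hq : Antitone fun i => (f i).1.1 := antitone_nat_of_succ_le fun i => (hf i).1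
  choose l l1 l2 l3 l4 l5 l6 l7 using fun i => (hf i).2
  have hk : StrictMono fun i => (f i).2.1 := strictMono_nat_of_lt_succ fun i => by
    have := l1 i
    have := l2 i
    omega
  have frz : ∀ i i', i ≤ i' → ∀ j < (f i).2.1, ∀ β, (f i).2.2 j = some β →
      (f i').2.2 j = some β ∧ (f i').1.1.s β j = (f i).1.1.s β j := by
    intro i i' h j hj β hβ
    induction i', h using Nat.le_induction with
    | base => exact ⟨hβ, rfl⟩
    | succ i' h ih =>
      have hj' := hj.trans_le (hk.monotone h)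
      exact ⟨(l3 i' j hj').trans ih.1, (l4 i' j hj' β ih.1).trans ih.2⟩
  let q : Cond N Λ := ⟨fun α j => ⋂ i, (f i).1.1.s α j, ?_, fun α j => ?_, fun α m n => ?_⟩
  · have hle : ∀ i, q ≤ (f i).1.1 := fun i α j => iInter_subset (fun i => (f i).1.1.s α j) i
    refine ⟨q, (hle 0).trans (f 0).1.2, fun n => ?_⟩
    have hex : ∃ i, n < l i := ⟨n + 1, (hk.le_apply (x := n + 1)).trans (l1 _)⟩
    obtain ⟨S, s1, s2⟩ := l7 _ n (Nat.find_spec hex)
    refine ⟨S, s1.trans ?_, fun r hr => s2 r (hr.trans (hle _))⟩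
    have hb : (f (Nat.find hex)).2.1 ≤ n + 1 := by
      rcases h : Nat.find hex with _ | i
      · rw [f0]; exact Nat.zero_le _
      · have := Nat.find_min hex (i.lt_succ_self.trans_eq h.symm)
        rw [l2]; omega
    refine Fintype.card_le_of_surjective (fun ρ i => ρ (Fin.castLE hb i)) fun ρ => ?_
    exact ⟨fun i => if h : i < (f (Nat.find hex)).2.1 then ρ ⟨i, h⟩ else (p.ne (en p 0) i).some,
      funext fun i => dif_pos i.2⟩
  · refine (countable_iUnion fun i => (f i).1.1.supp).mono fun α h => ?_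
    by_contra hc
    simp only [mem_iUnion, not_exists, mem_ofPred_eq, not_not] at hc
    exact h (funext fun j => by simp [hc])
  · by_contra hc
    rw [nonempty_iInter] at hc
    push Not at hc
    choose g hg using hc
    obtain ⟨x, hx⟩ := (f (Finset.univ.sup g)).1.1.ne α j
    exact hg x (hq (Finset.le_sup (Finset.mem_univ x)) α j hx)
  · by_cases h : ∃ i, (f i).1.1.s α ≠ fun _ => univ
    · obtain ⟨i₀, hi⟩ := h
      obtain ⟨e, he⟩ : α ∈ range (en (f i₀).1.1) := hen _ ▸ Or.inr hi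
      let i := Nat.pair i₀ (Nat.pair e (max m n))
      have hi' : max m n ≤ i := (Nat.right_le_pair _ _).trans (Nat.right_le_pair _ _)
      have e1 : en (f i.unpair.1).1.1 i.unpair.2.unpair.1 = α := by simp [i, he]
      have h5 := l5 i
      have h6 := l6 i
      rw [e1] at h5 h6
      refine ⟨l i, ((le_max_right _ _).trans hi').trans (hk.le_apply.trans (l1 i)), ?_⟩
      have e2 : ⋂ i', (f i').1.1.s α (l i) = (f (i + 1)).1.1.s α (l i) :=
        (iInter_subset (fun i' => (f i').1.1.s α (l i)) _).antisymm (subset_iInter fun i' => by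
          rcases le_total (i + 1) i' with h | h
          · rw [(frz _ _ h (l i) (by rw [l2]; omega) α h5).2]
          · exact hq h α _)
      rw [e2]
      exact N.anti ((le_max_left _ _).trans hi') h6
    · push Not at h
      simpa [h, iInter_const] using lim_full m n

end Pool.Agent.P.MP_081461_lc
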