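import Pool.Agent.P.MP_081461_lc.DDefs

/-! If `G(n)^n ≤ F(n^c)` for almost all `n`, then `𝔡(≠*, F) ≤ 𝔡(≠*, G)`. -/

namespace Pool.Agent.P.MP_081461_lc

open Filter Set
open scoped Cardinal

/-- at most `κ` sequences evade all slaloms of width `h` -/
def Sl (β : ℕ → Type) (h : ℕ → ℕ) (κ : Cardinal) : Prop :=
  ∃ D : Set (∀ t, β t), #D ≤ κ ∧ ∀ φ : ∀ t, Finset (β t), (∀ t, (φ t).card ≤ h t) →
    ∃ y ∈ D, ∀ᶠ t in atTop, y t ∉ φ t

theorem heavy {β γ : Type} (φ : Finset (β × γ)) {h g : ℕ} (hφ : φ.card ≤ h * g) :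
    ∃ S : Finset β, S.card ≤ h ∧ ∀ u, ∃ R : Finset γ, R.card ≤ g ∧
      (u ∉ S → ∀ v, (u, v) ∈ φ → v ∈ R) := by
  classical
  refine ⟨(φ.image Prod.fst).filter fun u => g < (φ.filter fun p => p.1 = u).card, ?_, fun u => ?_⟩
  · have a1 : ((φ.image Prod.fst).filter fun u => g < (φ.filter fun p => p.1 = u).card).card •
        (g + 1) ≤ ∑ u ∈ φ.image Prod.fst, (φ.filter fun p => p.1 = u).card :=
      le_trans (Finset.card_nsmul_le_sum _ (fun u => (φ.filter fun p => p.1 = u).card) (g + 1)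
        fun u hu => Nat.succ_le_of_lt (Finset.mem_filter.mp hu).2)
          (Finset.sum_le_sum_of_subset (Finset.filter_subset _ _))
    rw [← Finset.card_eq_sum_card_image Prod.fst φ, smul_eq_mul] at a1
    exact Nat.le_of_mul_le_mul_right
      ((a1.trans hφ).trans (Nat.mul_le_mul_left _ g.le_succ)) g.succ_pos
  · by_cases hu : g < (φ.filter fun p => p.1 = u).card
    · exact ⟨∅, Nat.zero_le _, fun h v hv => absurd
        (Finset.mem_filter.mpr ⟨Finset.mem_image_of_mem Prod.fst hv, hu⟩) h⟩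
    · exact ⟨(φ.filter fun p => p.1 = u).image Prod.snd,
        Finset.card_image_le.trans (not_lt.mp hu), fun _ v hv =>
          Finset.mem_image.mpr ⟨(u, v), Finset.mem_filter.mpr ⟨hv, rfl⟩, rfl⟩⟩

theorem Sl.prod {β γ : ℕ → Type} {h g : ℕ → ℕ} {κ : Cardinal} (hκ : ℵ₀ ≤ κ) (h1 : Sl β h κ)
    (h2 : Sl γ g κ) : Sl (fun t => β t × γ t) (fun t => h t * g t) κ := by
  obtain ⟨D, d1, d2⟩ := h1
  obtain ⟨E, e1, e2⟩ := h2
  refine ⟨image2 (fun y z t => (y t, z t)) D E,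
    Cardinal.mk_image2_le.trans (Cardinal.mul_le_of_le hκ d1 e1), fun φ hφ => ?_⟩
  choose S s1 R s2 s3 using fun t => heavy (φ t) (hφ t)
  obtain ⟨y, y1, y2⟩ := d2 S s1
  obtain ⟨z, z1, z2⟩ := e2 (fun t => R t (y t)) fun t => s2 t _
  refine ⟨_, mem_image2_of_mem y1 z1, ?_⟩
  filter_upwards [y2, z2] with t a1 a2 a3
  exact a2 (s3 t _ a1 _ a3)

theorem Sl.pow {β : ℕ → Type} [∀ t, Fintype (β t)] {h : ℕ → ℕ} {κ : Cardinal} (hκ : ℵ₀ ≤ κ)
    (h1 : Sl β h κ) (k : ℕ) : ∃ (γ : ℕ → Type) (_ : ∀ t, Fintype (γ t)),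
      (∀ t, Fintype.card (γ t) = Fintype.card (β t) ^ (k + 1)) ∧
      Sl γ (fun t => h t ^ (k + 1)) κ := by
  induction k with
  | zero => exact ⟨β, _, fun _ => (pow_one _).symm, by simpa using h1⟩
  | succ k ih =>
    obtain ⟨γ, _, g1, g2⟩ := ih
    exact ⟨fun t => γ t × β t, inferInstance, fun t => by rw [Fintype.card_prod, g1, ← pow_succ],
      g2.prod hκ h1⟩

/-- a witnessing family -/
def Wit (h : ℕ → ℕ) (D : Set (ℕ → ℕ)) : Prop :=
  (∀ y ∈ D, ∀ n, y n < h n) ∧ ∀ x : ℕ → ℕ, ∃ y ∈ D, ∀ᶠ n in atTop, x n ≠ y n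

theorem Wit.infinite {h : ℕ → ℕ} {D : Set (ℕ → ℕ)} (hD : Wit h D) : ℵ₀ ≤ #D := by
  by_contra hc
  obtain ⟨y₀, hy₀, -⟩ := hD.2 fun _ => 0
  obtain ⟨e, he⟩ := (Cardinal.le_aleph0_iff_set_countable.mp (not_le.mp hc).le).exists_eq_range
    ⟨y₀, hy₀⟩
  obtain ⟨y, y1, y2⟩ := hD.2 fun n => e n.unpair.1 n
  obtain ⟨j, rfl⟩ : y ∈ range e := he ▸ y1
  obtain ⟨N, hN⟩ := eventually_atTop.mp y2
  exact hN (Nat.pair j N) (Nat.right_le_pair _ _) (by simp)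

theorem Wit.sl {G : ℕ → ℕ} (hm : Monotone G) (h0 : ∀ n, 0 < G n) {D : Set (ℕ → ℕ)}
    (hD : Wit G D) : Sl (fun t => Fin (2 ^ t) → Fin (G (2 ^ (t + 1)))) (fun t => 2 ^ t) #D := by
  classical
  have hlt : ∀ t (i : Fin (2 ^ t)), 2 ^ t + (i : ℕ) < 2 ^ (t + 1) := fun t i => by
    have := i.2
    rw [pow_succ]; omega
  refine ⟨range fun (y : D) t i => ⟨y.1 (2 ^ t + i), (hD.1 _ y.2 _).trans_le (hm (hlt t i).le)⟩,
    Cardinal.mk_range_le, fun φ hφ => ?_⟩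
  have he : ∀ t, ∃ e : Fin (2 ^ t) → Fin (2 ^ t) → Fin (G (2 ^ (t + 1))),
      ∀ u ∈ φ t, ∃ i, e i = u := fun t => by
    obtain ⟨j⟩ : Nonempty (φ t ↪ Fin (2 ^ t)) := Function.Embedding.nonempty_of_card_le
      (by rw [Fintype.card_coe, Fintype.card_fin]; exact hφ t)
    exact ⟨Function.extend j Subtype.val fun _ _ => ⟨0, h0 _⟩, fun u hu =>
      ⟨j ⟨u, hu⟩, j.injective.extend_apply _ _ _⟩⟩
  choose e he using he
  have hi : Function.Injective fun p : Σ t, Fin (2 ^ t) => 2 ^ p.1 + (p.2 : ℕ) := by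
    rintro ⟨t, i⟩ ⟨t', i'⟩ h
    have key : ∀ t (i : Fin (2 ^ t)), Nat.log 2 (2 ^ t + i) = t := fun t i =>
      Nat.log_eq_of_pow_le_of_lt_pow (Nat.le_add_right _ _) (hlt t i)
    obtain rfl : t = t' := (key t i).symm.trans ((congrArg _ h).trans (key t' i'))
    rw [show i = i' from Fin.ext (Nat.add_left_cancel h)]
  obtain ⟨y, y1, y2⟩ := hD.2 (Function.extend _ (fun p : Σ t, Fin (2 ^ t) => (e p.1 p.2 p.2 : ℕ))
    fun _ => 0)
  obtain ⟨N, hN⟩ := eventually_atTop.mp y2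
  refine ⟨_, ⟨⟨y, y1⟩, rfl⟩, eventually_atTop.mpr ⟨N, fun t ht hu => ?_⟩⟩
  obtain ⟨i, h⟩ := he t _ hu
  refine hN (2 ^ t + i) (ht.trans (t.lt_two_pow_self.le.trans (Nat.le_add_right _ _))) ?_
  rw [hi.extend_apply _ _ ⟨t, i⟩, h]

theorem Sl.wit {γ : ℕ → Type} [∀ t, Fintype (γ t)] {h F : ℕ → ℕ} {κ : Cardinal} (h1 : Sl γ h κ)
    (h0 : ∀ n, 0 < F n) {τ : ℕ → ℕ} (h2 : Tendsto τ atTop atTop) (h3 : ∀ n, n < h (τ n))
    (h4 : ∀ᶠ n in atTop, Fintype.card (γ (τ n)) ≤ F n) :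
    ∃ D : Set (ℕ → ℕ), #D ≤ κ ∧ Wit F D := by
  classical
  obtain ⟨D, d1, d2⟩ := h1
  let j : ∀ t, γ t → ℕ := fun t u => Fintype.equivFin (γ t) u
  have hj : ∀ t, Function.Injective (j t) := fun t =>
    Fin.val_injective.comp (Fintype.equivFin (γ t)).injective
  refine ⟨(fun y n => j _ (y (τ n)) % F n) '' D, Cardinal.mk_image_le.trans d1, ?_, fun x => ?_⟩
  · rintro _ ⟨y, -, rfl⟩ n
    exact Nat.mod_lt _ (h0 n)
  · obtain ⟨y, y1, y2⟩ := d2
      (fun t => ((Finset.range (h t)).image x).preimage (j t) (hj t).injOn) fun t => by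
        rw [Finset.card_preimage]
        exact (Finset.card_filter_le _ _).trans (Finset.card_image_le.trans (by simp))
    refine ⟨_, mem_image_of_mem _ y1, ?_⟩
    filter_upwards [h2.eventually y2, h4] with n a1 a2 a3
    rw [Nat.mod_eq_of_lt ((Fintype.equivFin _ _).2.trans_le a2)] at a3
    exact a1 (Finset.mem_preimage.mpr (Finset.mem_image.mpr ⟨n, Finset.mem_range.mpr (h3 n), a3⟩))

theorem dNe_le {F G : ℕ → ℕ} (hF : ∀ n, 0 < F n) (hF' : Monotone F) (hG : ∀ n, 2 ≤ G n)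
    (hG' : Monotone G) {c : ℕ} (h : ∀ᶠ n in atTop, G n ^ n ≤ F (n ^ c)) : dNe F ≤ dNe G := by
  have h0 : ∀ n, 0 < G n := fun n => two_pos.trans_le (hG n)
  obtain ⟨D, d1, d2⟩ : ∃ D : Set (ℕ → ℕ), #D = dNe G ∧ Wit G D :=
    csInf_mem (s := {c | ∃ D : Set (ℕ → ℕ), #D = c ∧ Wit G D}) ⟨_, {y | ∀ n, y n < 2}, rfl,
      fun y hy n => (hy n).trans_le (hG n), fun x => ⟨fun n => if x n = 0 then 1 else 0,
        fun n => by beta_reduce; split_ifs <;> omega, Eventually.of_forall fun n => by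
          beta_reduce; split_ifs <;> omega⟩⟩
  obtain ⟨γ, _, g1, g2⟩ := (d2.sl hG' h0).pow d2.infinite (2 * c)
  have hb : 1 < 2 ^ (2 * c + 1) := Nat.one_lt_two_pow (Nat.succ_ne_zero _)
  have ht : Tendsto (Nat.log (2 ^ (2 * c + 1))) atTop atTop :=
    Nat.log_monotone.tendsto_atTop_atTop fun b => ⟨_, (Nat.log_pow hb b).ge⟩
  obtain ⟨N, hN⟩ := eventually_atTop.mp h
  obtain ⟨D', e1, e2⟩ := g2.wit hF (τ := fun n => Nat.log (2 ^ (2 * c + 1)) n + 1)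
    (tendsto_add_atTop_nat 1 |>.comp ht) (fun n => by
      rw [← pow_mul, mul_comm, pow_mul]
      exact Nat.lt_pow_succ_log_self hb n) (by
      filter_upwards [ht.eventually_ge_atTop (N + 2 * c + 1), eventually_ne_atTop 0] with n a1 a2
      have a3 := Nat.pow_log_le_self (2 ^ (2 * c + 1)) a2
      generalize Nat.log (2 ^ (2 * c + 1)) n = u at a1 a3
      have a4 : u + 1 < 2 ^ (u + 1) := Nat.lt_two_pow_self
      have a5 : 2 ^ (u + 1) ≤ 2 ^ (2 * (u + 1)) := Nat.pow_le_pow_right two_pos (by omega)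
      rw [g1, Fintype.card_fun, Fintype.card_fin, Fintype.card_fin, ← pow_mul]
      refine le_trans ?_ ((hN (2 ^ (2 * (u + 1))) (by omega)).trans (hF' (le_trans ?_ a3)))
      · refine (Nat.pow_le_pow_left (hG' (Nat.pow_le_pow_right two_pos (by omega))) _).trans
          (Nat.pow_le_pow_right (h0 _) ?_)
        rw [two_mul (u + 1), pow_add 2 (u + 1) (u + 1)]
        exact Nat.mul_le_mul_left _ (by omega)
      · rw [← pow_mul, ← pow_mul]
        exact Nat.pow_le_pow_right two_pos (by nlinarith))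
  exact (csInf_le' (s := {c | ∃ D : Set (ℕ → ℕ), #D = c ∧ Wit F D}) ⟨D', rfl, e2⟩).trans
    (e1.trans d1.le)

end Pool.Agent.P.MP_081461_lc
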