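import Pool.Agent.P.MP_081461_lc.DForce
import Pool.Agent.P.MP_081461_lc.DZF

/-! The growth conditions give the parameters. -/

namespace Pool.Agent.P.MP_081461_lc

open Filter

variable {F G : ℕ → ℕ} {c : ℕ}

theorem summable_inv (h2 : ∀ n, 2 ≤ F n) (g2 : ∀ n, 2 ≤ G n) (hG : Monotone G)
    (h : ∀ᶠ n in atTop, F n ^ n ≤ G (n ^ c)) : Summable fun n => (1 / G n : ℝ) := by
  have h0 : ∀ n, (0 : ℝ) < G n := fun n => by exact_mod_cast two_pos.trans_le (g2 n)
  refine (summable_condensed_iff_of_nonneg (fun n => by positivity) fun m n _ hmn =>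
    one_div_le_one_div_of_le (h0 m) (by exact_mod_cast hG hmn)).mp ?_
  obtain ⟨N, hN⟩ := eventually_atTop.mp h
  refine summable_geometric_two.of_norm_bounded_eventually_nat
    (eventually_atTop.mpr ⟨2 * (c + 1) * (N + 4 * (c + 1)), fun k hk => ?_⟩)
  have a1 : N + 4 * (c + 1) ≤ k / (2 * (c + 1)) :=
    (Nat.le_div_iff_mul_le (by omega)).mpr (by rwa [mul_comm])
  have a2 := Nat.lt_mul_div_succ k (show 0 < 2 * (c + 1) by omega)
  have a3 := Nat.mul_div_le k (2 * (c + 1))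
  generalize k / (2 * (c + 1)) = i at a1 a2 a3
  have a4 := Nat.two_mul_sq_add_one_le_two_pow_two_mul i
  have a5 : 2 * k ≤ 2 ^ (2 * i) := by nlinarith
  have a6 : 2 ^ (2 * k) ≤ G (2 ^ k) :=
    ((Nat.pow_le_pow_right two_pos a5).trans (Nat.pow_le_pow_left (h2 _) _)).trans
      ((hN (2 ^ (2 * i)) (by nlinarith)).trans (hG (by
        rw [← pow_mul]
        exact Nat.pow_le_pow_right two_pos (by nlinarith))))
  have a7 : (2 : ℝ) ^ k * 2 ^ k ≤ G (2 ^ k) := by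
    rw [← pow_add, ← two_mul]
    exact_mod_cast a6
  rw [Real.norm_of_nonneg (by positivity), mul_one_div, one_div, inv_pow, ← one_div,
    div_le_div_iff₀ (h0 _) (by positivity), one_mul]
  exact a7

theorem exists_phi (h2 : ∀ n, 2 ≤ F n) (hm : Monotone F)
    (h : ∀ᶠ n in atTop, F n ^ n ≤ G (n ^ c)) (h' : ¬ ∃ c, ∀ᶠ n in atTop, G n ≤ F (n ^ c)) :
    ∃ φ : ℕ → ℕ, ∀ e N, ∃ n, N ≤ n ∧ ∀ a ≤ e, F (n ^ e) ^ n ^ a ≤ G (n ^ φ a) := by
  have h0 : ∀ n, 0 < F n := fun n => two_pos.trans_le (h2 n)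
  by_cases hc : ∀ E, ∃ᶠ n in atTop, F (n ^ E) ^ n ^ E ≤ G n
  · refine ⟨fun _ => 1, fun e N => ?_⟩
    obtain ⟨n, a1, a2⟩ := frequently_atTop.mp (hc e) (N + 1)
    refine ⟨n, by omega, fun a ha => ?_⟩
    rw [pow_one]
    exact (Nat.pow_le_pow_right (h0 _) (Nat.pow_le_pow_right (by omega) ha)).trans a2
  · obtain ⟨E, hE⟩ := not_forall.mp hc
    obtain ⟨N₀, hN⟩ := eventually_atTop.mp h
    refine ⟨fun a => (E + a + 1) * c, fun e N => ?_⟩
    obtain ⟨n, a1, a2, a3⟩ := ((not_eventually.mp (not_exists.mp h' e)).and_eventually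
      ((not_frequently.mp hE).and (eventually_ge_atTop (N + N₀ + 1)))).exists
    refine ⟨n, by omega, fun a _ => ?_⟩
    have a4 : 0 < n := by omega
    rw [pow_mul]
    refine (Nat.pow_le_pow_left ((not_le.mp a1).trans (not_le.mp a2)).le _).trans
      (le_trans ?_ (hN _ (le_trans (by omega) (Nat.le_self_pow (Nat.succ_ne_zero _) n))))
    rw [← pow_mul, ← pow_add]
    exact (Nat.pow_le_pow_left (hm (Nat.pow_le_pow_right a4 (by omega))) _).trans
      (Nat.pow_le_pow_right (h0 _) (Nat.pow_le_pow_right a4 (by omega)))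

theorem pow_le_of_le (h2 : ∀ n, 2 ≤ F n) (hm : Monotone F) (hG : Monotone G) {e : ℕ}
    (h : ∀ᶠ n in atTop, F n ^ n ≤ G (n ^ c)) (h' : ∀ᶠ n in atTop, G n ≤ F (n ^ e)) :
    ∀ᶠ n in atTop, G n ^ n ≤ F (n ^ ((e + 1) * (c + 1) * e)) := by
  obtain ⟨N, hN⟩ := eventually_atTop.mp (h.and h')
  refine eventually_atTop.mpr ⟨N + 1, fun n hn => ?_⟩
  have a1 : 0 < n := by omega
  have a2 : n ≤ n ^ (e + 1) := Nat.le_self_pow (Nat.succ_ne_zero _) n
  have a3 : n ≤ n ^ ((e + 1) * (c + 1)) := Nat.le_self_pow (by positivity) n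
  refine (Nat.pow_le_pow_left ((hN n (by omega)).2.trans
    (hm (Nat.pow_le_pow_right a1 e.le_succ))) _).trans
    ((Nat.pow_le_pow_right (two_pos.trans_le (h2 _)) a2).trans
      ((hN _ (le_trans (by omega) a2)).1.trans ?_))
  rw [pow_mul, ← pow_mul n (e + 1) c]
  exact (hG (Nat.pow_le_pow_right a1 (Nat.mul_le_mul_left _ c.le_succ))).trans
    (hN _ (le_trans (by omega) a3)).2

end Pool.Agent.P.MP_081461_lc
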