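import Pool.Agent.P.MP_081461_lc.Defs

/-! The cardinal of the problem, and the consistency statement. -/

namespace Pool.Agent.P.MP_081461_lc

open Pool.Agent.P.MP_54b694_lc Pool.Agent.P.MP_b10269_lc.H21 Filter

/-- The cardinal `𝔡(≠*, h)`: the least size of a family `D ⊆ ∏ h` such that every function is
eventually different from a member of `D`. -/
noncomputable def dNe (h : ℕ → ℕ) : Cardinal :=
  sInf {c | ∃ D : Set (ℕ → ℕ), Cardinal.mk D = c ∧ (∀ y ∈ D, ∀ n, y n < h n) ∧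
    ∀ x : ℕ → ℕ, ∃ y ∈ D, ∀ᶠ n in atTop, x n ≠ y n}

/-- `𝔡(≠*, G) < 𝔡(≠*, F)` holds in a model of ZFC with standard natural numbers. -/
def Sep (F G : ℕ → ℕ) : Prop :=
  ∃ (M : Type 1) (E : M → M → Prop), IsZFC E ∧ ∃ w f g a b : M,
    IsOmega E w ∧ (∀ x, E x w → ∃ n, Num E n x) ∧ Codes E w f F ∧ Codes E w g G ∧
    IsLeastCard E (Dom E w g) a ∧ IsLeastCard E (Dom E w f) b ∧ CardLT E a b

end Pool.Agent.P.MP_081461_lc
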