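import Pool.Agent.P.MP_081461_lc.DPar
import Pool.Agent.P.MP_081461_lc.DDefs
import Pool.Agent.P.MP_081461_lc.BVm

/-! The Boolean algebra and the model for the sharp growth gap. -/

namespace Pool.Agent.P.MP_081461_lc

open Set Pool.Agent.P.MP_b10269_lc.H21 Pool.Agent.P.MP_54b694_lc
open scoped Cardinal

variable {F G : ℕ → ℕ} {B : Type} [CompleteBooleanAlgebra B] {Λ : Type}

namespace Par

variable (p : Par F G)

theorem evade (h2 : ∀ n, 2 ≤ F n) (hm : Monotone F) (g2 : ∀ n, 2 ≤ G n) (hG : Monotone G)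
    [Nonempty Λ] (P : Pres (Cond (p.creat h2) Λ) B) : Evade B G := by
  intro X b hp h1 h3
  obtain ⟨q, hq⟩ := P.dense b hp
  have hA : ∀ n m, IsLowerSet (P.pts (X n m)) := fun n m => (P.reg_pts _).1
  have hd : ∀ n, ∀ r ≤ q, ∃ t ≤ r, ∃ v, t ∈ P.pts (X n v) := fun n =>
    (P.le_iSup_iff q _).mp (hq.trans (h1 n))
  obtain ⟨q', q1, v, hv⟩ := dense_upto (K' := fun _ => ℕ) hA hd (p.w 0) q le_rfl
  obtain ⟨r, r1, r2⟩ := timely' (p.evBig h2 hm (fun n => two_pos.trans_le (g2 n)) hG) hA p.wk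
    (p := q') fun n t ht => hd n t (ht.trans q1)
  have hy : ∀ n, ∃ y < G n, Avoid (fun m => P.pts (X n m)) r y := fun n => by
    by_cases hn : n < p.w 0
    · have := g2 n
      refine ⟨if v ⟨n, hn⟩ = 0 then 1 else 0, by split_ifs <;> omega, fun t ht =>
        ⟨t, le_rfl, v ⟨n, hn⟩, by split_ifs <;> omega,
          hA _ _ (ht.trans r1) (mem_iInter.mp hv ⟨n, hn⟩)⟩⟩
    · exact r2 n (not_lt.mp hn)
  choose y y1 y2 using hy
  refine ⟨_, P.ne_bot r, (P.mono (r1.trans q1)).trans hq, y, y1, fun n =>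
    (P.compl _ _).mpr fun t ht g => ?_⟩
  obtain ⟨u, u1, m, e, m2⟩ := y2 n t ht
  exact P.ne_bot u (le_bot_iff.mp ((le_inf (le_inf
    ((P.mono ((u1.trans ht).trans (r1.trans q1))).trans hq) m2) ((P.mono u1).trans g)).trans
      (h3 n _ _ e).le))

theorem exists_block (n : ℕ) : ∃ k, ∃ i : Fin (p.μ k k), p.s k + i = n := by
  have h : ∃ k, n < p.s (k + 1) := ⟨n, p.s_mono.le_apply (x := n + 1)⟩
  classical
  have h1 : p.s (Nat.find h) ≤ n := by
    rcases e : Nat.find h with _ | k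
    · exact p.s0.le.trans n.zero_le
    · exact not_lt.mp (Nat.find_min h (k.lt_succ_self.trans_eq e.symm))
  have h3 := Nat.find_spec h
  rw [p.ss] at h3
  exact ⟨Nat.find h, ⟨n - p.s (Nat.find h), by omega⟩, Nat.add_sub_cancel' h1⟩

theorem block_unique {k k' : ℕ} {i : Fin (p.μ k k)} {i' : Fin (p.μ k' k')}
    (h : p.s k + i = p.s k' + i') : k = k' := by
  have key : ∀ {k k' : ℕ} (i : Fin (p.μ k k)) (i' : ℕ), p.s k + i = p.s k' + i' →
      k' ≤ k := fun {k k'} i i' h => not_lt.mp fun hk => by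
    have h1 : p.s (k + 1) ≤ p.s k' := p.s_mono.monotone hk
    have := i.2
    rw [p.ss] at h1
    omega
  exact (key i' i h.symm).antisymm (key i i' h)

theorem meet (h2 : ∀ n, 2 ≤ F n) (P : Pres (Cond (p.creat h2) (W 𝔠)) B) : Meet B F := by
  intro ι hι Y
  choose S s1 s2 using exists_support P
  have hc : #(ι × ℕ × ℕ) ≤ 𝔠 := by
    simpa using Cardinal.mul_le_of_le Cardinal.aleph0_le_continuum hι Cardinal.aleph0_le_continuum
  obtain ⟨α, hα⟩ := W_bdd Cardinal.aleph0_le_continuum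
    (⋃ z : ι × ℕ × ℕ, S (Y z.1 z.2.1 z.2.2))
    (mk_iUnion_le_of Cardinal.aleph0_le_continuum hc fun _ => s1 _)
  let Z : ℕ → ℕ → Set (Cond (p.creat h2) (W 𝔠)) := fun n m =>
    {q | ∃ k, ∃ i : Fin (p.μ k k), p.s k + i = n ∧ ∀ x ∈ q.s α k, (x i : ℕ) = m}
  have hZ : ∀ n m, IsLowerSet (Z n m) := fun n m q r h ⟨k, i, e, g⟩ =>
    ⟨k, i, e, fun x hx => g x (h α k hx)⟩
  have hX : ∀ n m q, P.e q ≤ P.ro (Den (Z n m)) ↔ q ∈ Den (Z n m) := fun n m =>
    P.le_ro (reg_den _)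
  refine ⟨fun n m => P.ro (Den (Z n m)), fun n => top_le_iff.mp (P.le_of fun q _ =>
    (P.le_iSup_iff q _).mpr fun r _ => ?_), fun n m m' h => ?_, fun i b hp h l => ?_⟩
  · obtain ⟨k, i, e⟩ := p.exists_block n
    obtain ⟨x, hx⟩ := r.ne α k
    obtain ⟨t, t1, t2, -⟩ := r.exists_set α k (singleton_nonempty x) (singleton_subset_iff.mpr hx)
    exact ⟨t, t1, x i, (hX _ _ _).mpr (mem_den (hZ _ _) ⟨k, i, e, fun y hy => by
      rw [t2] at hy; rw [hy]⟩)⟩
  · by_contra hc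
    obtain ⟨q, hq⟩ := P.dense _ hc
    obtain ⟨r, r1, r2⟩ := (hX _ _ _).mp (hq.trans inf_le_left) q le_rfl
    obtain ⟨t, t1, k', i', e', g'⟩ := (hX _ _ _).mp (hq.trans inf_le_right) r r1
    obtain ⟨k, i, e, g⟩ := hZ _ _ t1 r2
    obtain rfl := p.block_unique (e.trans e'.symm)
    obtain rfl : i = i' := Fin.ext (Nat.add_left_cancel (e.trans e'.symm))
    obtain ⟨x, hx⟩ := t.ne α k
    exact h ((g x hx).symm.trans (g' x hx))
  · obtain ⟨q, hq⟩ := P.dense b hp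
    obtain ⟨k, k1, -, I, k2, k3⟩ := q.lim α 0 l
    obtain ⟨r, r1, y, hy⟩ := dense_upto (K' := fun n => Fin (F n))
      (A := fun n m => P.pts (Y i n m)) (fun n m => (P.reg_pts _).1) (q := q)
      (fun n => (P.le_iSup_iff q _).mp (hq.trans (h n))) (p.s k + p.μ k k) q le_rfl
    obtain ⟨x, hx, h4⟩ := k3 fun j => y ⟨p.s k + j, Nat.add_lt_add_left j.2 _⟩
    obtain ⟨j, hj⟩ := Finset.card_pos.mp ((p.μ0 k).trans_le k2)
    obtain ⟨t, t1, t2, -⟩ := q.exists_set α k (singleton_nonempty x) (singleton_subset_iff.mpr hx)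
    have g1 : Cond.glue {α} t r ≤ q := fun β k => by
      by_cases hβ : β ∈ ({α} : Set _)
      · rw [Cond.glue_pos _ _ hβ]; exact t1 β k
      · rw [Cond.glue_neg _ _ hβ]; exact r1 β k
    refine ⟨p.s k + j, (k1.trans p.s_mono.le_apply).trans (Nat.le_add_right _ _), x j,
      fun h0 => P.ne_bot (Cond.glue {α} t r) (le_bot_iff.mp (le_trans (le_inf (le_inf
        ((P.mono g1).trans hq) ((hX _ _ _).mpr (mem_den (hZ _ _) ⟨k, j, rfl, fun z hz => ?_⟩)))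
        (s2 _ r _ (fun β hβ => Cond.glue_neg _ _ fun e => ?_) ?_)) h0.le))⟩
    · rw [Cond.glue_pos _ _ (mem_singleton α), t2] at hz
      rw [hz]
    · exact (hα β (mem_iUnion.mpr ⟨(i, _, _), hβ⟩)).ne e
    · rw [h4 j hj]
      exact mem_iInter.mp hy ⟨_, Nat.add_lt_add_left j.2 _⟩

end Par

theorem exists_dom (h2 : ∀ n, 2 ≤ F n) (U : Ultra B) :
    ∃ D, Dom (mem U) (mk U omegaN) (mk U (fnN (gX F))) D :=
  ⟨_, dom_of (G := F)
    (Y := fun (τ : ℕ → B) n m => if m = 0 then (τ n)ᶜ else if m = 1 then τ n else ⊥)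
    (fun τ => ⟨fun n => top_le_iff.mp ((compl_sup_eq_top (x := τ n)).ge.trans
      (sup_le (le_iSup_of_le 0 le_rfl) (le_iSup_of_le 1 le_rfl))), fun n m m' e => by
        beta_reduce; split_ifs <;> simp_all, fun n m e =>
        have := h2 n
        (if_neg (by omega)).trans (if_neg (by omega))⟩)
    (fun X p p1 _ p3 => ⟨p, p1, le_rfl, fun n => X n 0, fun n m => by
      split_ifs with e e'
      · rw [e, inf_assoc, inf_compl_eq_bot, inf_bot_eq]
      · exact p3 n m 0 e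
      · exact inf_bot_eq _⟩) U⟩

theorem main' (h2 : ∀ n, 2 ≤ F n) (hE : Evade B G) (hM : Meet B F) (U : Ultra B) : ∃ a b,
      IsLeastCard (mem U) (Dom (mem U) (mk U omegaN) (mk U (fnN (gX G)))) a ∧
      IsLeastCard (mem U) (Dom (mem U) (mk U omegaN) (mk U (fnN (gX F)))) b ∧
      CardLE (mem U) a b ∧ ¬ CardLE (mem U) b a := by
  have d1 := dom_of (Y := fun y : {y : ℕ → ℕ // ∀ n, y n < G n} => (gX y.1 : ℕ → ℕ → B))
    (fun y => good_gX y.2) (fun X p p1 p2 p3 => by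
      obtain ⟨q, q1, q2, y, y1, y2⟩ := hE X p p1 p2 p3
      refine ⟨q, q1, q2, ⟨y, y1⟩, fun n m => le_bot_iff.mp (le_of_ultra fun V hV => ?_)⟩
      rw [V.inf_iff, V.inf_iff] at hV
      obtain rfl : m = y n := s_gX hV.2
      exact absurd hV.1.2 (V.compl_iff.mp (V.mono (y2 n) hV.1.1))) U
  obtain ⟨a, a1, a2⟩ := exists_least_card
    (Q := fun V x => Dom (mem V) (mk V omegaN) (mk V (fnN (gX G))) x) (rep_dom _ _) U ⟨_, d1⟩
  obtain ⟨b, b1, b2⟩ := exists_least_card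
    (Q := fun V x => Dom (mem V) (mk V omegaN) (mk V (fnN (gX F))) x) (rep_dom _ _) U
    (exists_dom h2 U)
  have hba : ¬ CardLE (mem U) b a := fun g => by
    obtain ⟨b, rfl⟩ := mk_surj b
    obtain ⟨q, q1, -, q3⟩ := ((rep_dom _ _ b).and (rep_cardLE b _)).localize
      ⟨b1, cardLE_trans g (a2 _ d1)⟩ U.top
    obtain ⟨u, hu⟩ := cover_of_cardLE (fun V hV => (q3 V hV).2) (covered_mk q _ _)
    exact not_covered hM ((Cardinal.mk_subtype_le _).trans (by simp)) q1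
      (fun V hV => (q3 V hV).1) hu
  obtain ⟨c, c1, c2⟩ := exists_least_card
    (Q := fun V x => Dom (mem V) (mk V omegaN) (mk V (fnN (gX G))) x ∨
      Dom (mem V) (mk V omegaN) (mk V (fnN (gX F))) x)
    (fun x => (rep_dom _ _ x).or (rep_dom _ _ x)) U ⟨_, Or.inl d1⟩
  exact ⟨a, b, ⟨⟨a, a1, cardLE_refl U a, cardLE_refl U a⟩, a2⟩,
    ⟨⟨b, b1, cardLE_refl U b, cardLE_refl U b⟩, b2⟩, c1.elim
      (fun h => cardLE_trans (a2 c h) (c2 b (Or.inr b1)))
      fun h => absurd (cardLE_trans (b2 c h) (c2 a (Or.inl a1))) hba, hba⟩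

theorem sep_of_par (p : Par F G) (h2 : ∀ n, 2 ≤ F n) (hm : Monotone F) (g2 : ∀ n, 2 ≤ G n)
    (hG : Monotone G) : Sep F G := by
  obtain ⟨P⟩ := exists_pres (Q := Cond (p.creat h2) (W 𝔠))
  obtain ⟨U, M, E, j, t1, t2, t3⟩ := exists_omega_model
    (fun h => P.ne_bot (Classical.arbitrary _) (le_bot_iff.mp (h ▸ le_top)))
    (cns omegaN (cns (fnN (gX F)) fun _ => fnN (gX G)))
  obtain ⟨w, hw : j w = mk U omegaN⟩ := t2 0
  obtain ⟨f, hf : j f = mk U (fnN (gX F))⟩ := t2 1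
  obtain ⟨g, hg : j g = mk U (fnN (gX G))⟩ := t2 2
  have hC : ∀ (H : ℕ → ℕ) (h : M), j h = mk U (fnN (gX H)) → Codes E w h H := fun H h e =>
    ⟨(t1 (fun _ E v => IsFn E (v 0) (v 1)) (cns w fun _ => h)).mpr (by
      show IsFn _ (j w) (j h)
      rw [hw, e]
      exact isFn_fnN (good_gX fun n => (H n).lt_succ_self).1
        (good_gX fun n => (H n).lt_succ_self).2.1 U),
    fun n => (t1 (fun _ E v => ∀ a b, Num E n a → Num E (H n) b → Rel E (v 0) a b)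
      fun _ => h).mpr fun a b ha hb => by
        rw [e, (num_iff U _ a).mp ha, (num_iff U _ b).mp hb]
        exact rel_gX U H n⟩
  obtain ⟨a, b, g1, g2, g3⟩ := (t1 (fun _ E v => ∃ a b, IsLeastCard E (Dom E (v 0) (v 2)) a ∧
      IsLeastCard E (Dom E (v 0) (v 1)) b ∧ CardLE E a b ∧ ¬ CardLE E b a)
      (cns w (cns f fun _ => g))).mpr (by
    show ∃ a b, IsLeastCard _ (Dom _ (j w) (j g)) a ∧ IsLeastCard _ (Dom _ (j w) (j f)) b ∧ _
    rw [hw, hf, hg]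
    exact main' h2 (p.evade h2 hm g2 hG P) (p.meet h2 P) U)
  refine ⟨M, E, isZFC_of t1 w (mod_isZFC U), w, f, g, a, b,
    (t1 (fun _ E v => IsOmega E (v 0)) fun _ => w).mpr
      (hw ▸ ⟨omega_inductive U, omega_least U⟩), fun x hx => ?_, hC F f hf, hC _ g hg, g1, g2, g3⟩
  obtain ⟨n, hn⟩ := t3 x (hw ▸ (t1 (fun _ E v => E (v 0) (v 1)) (cns x fun _ => w)).mp hx)
  exact ⟨n, (t1 (fun _ E v => Num E n (v 0)) fun _ => x).mpr ((num_iff U n _).mpr hn)⟩

end Pool.Agent.P.MP_081461_lc
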