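import Pool.Agent.P.MP_081461_lc.DTime

/-! Parameters and creatures for the sharp growth gap. -/

namespace Pool.Agent.P.MP_081461_lc

open Set Finset

theorem card_mod_le (R g v : ℕ) :
    (((Finset.range R).filter fun u => v = u % g).card : ℝ) ≤ R * (1 / g) + 1 := by
  have h : ((Finset.range R).filter fun u => v = u % g).card ≤ (Finset.range (R / g + 1)).card :=
    Finset.card_le_card_of_injOn (fun u => u / g) (fun u hu => by
      have := Finset.mem_range.mp (Finset.mem_filter.mp hu).1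
      exact Finset.mem_coe.mpr (Finset.mem_range.mpr
        (Nat.lt_succ_of_le (Nat.div_le_div_right this.le))))
      fun u hu u' hu' e => by
        have a1 := (Finset.mem_filter.mp hu).2
        have a2 := (Finset.mem_filter.mp hu').2
        rw [← Nat.div_add_mod u g, ← Nat.div_add_mod u' g, ← a1, ← a2, show u / g = u' / g from e]
  rw [Finset.card_range] at h
  have h2 : ((R / g : ℕ) : ℝ) ≤ R / g := Nat.cast_div_le
  have h3 : (((Finset.range R).filter fun u => v = u % g).card : ℝ) ≤ (R / g : ℕ) + 1 := by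
    exact_mod_cast h
  rw [mul_one_div]
  linarith

theorem cover {ρ : Type} [Fintype ρ] {P w b : ℕ} {G : ℕ → ℕ} (hP : Fintype.card ρ ≤ P)
    (h : 2 * (P : ℝ) * ∑ n ∈ Finset.Ico w b, (1 / G n : ℝ) ≤ 1) (τ : ρ → ℕ → ℕ) :
    ∃ u < 2 * P * b + 1, ∀ r n, w ≤ n → n < b → τ r n ≠ u % G n := by
  classical
  by_contra hc
  push Not at hc
  have h1 : Finset.range (2 * P * b + 1) ⊆ Finset.univ.biUnion fun r =>
      (Finset.Ico w b).biUnion fun n =>
        (Finset.range (2 * P * b + 1)).filter fun u => τ r n = u % G n := fun u hu => by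
    obtain ⟨r, n, a1, a2, a3⟩ := hc u (Finset.mem_range.mp hu)
    exact Finset.mem_biUnion.mpr ⟨r, Finset.mem_univ _, Finset.mem_biUnion.mpr
      ⟨n, Finset.mem_Ico.mpr ⟨a1, a2⟩, Finset.mem_filter.mpr ⟨hu, a3⟩⟩⟩
  have h2 := (Finset.card_le_card h1).trans
    (Finset.card_biUnion_le.trans (Finset.sum_le_sum fun r _ => Finset.card_biUnion_le))
  rw [Finset.card_range] at h2
  have h3 : ((2 * P * b + 1 : ℕ) : ℝ) ≤ ∑ _r : ρ, ∑ n ∈ Finset.Ico w b,
      (((2 * P * b + 1 : ℕ) : ℝ) * (1 / G n) + 1) :=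
    le_trans (by exact_mod_cast h2)
      (Finset.sum_le_sum fun r _ => Finset.sum_le_sum fun n _ => card_mod_le _ _ (τ r n))
  rw [Finset.sum_const, Finset.sum_add_distrib, ← Finset.mul_sum, Finset.sum_const, Nat.card_Ico,
    Finset.card_univ, nsmul_eq_mul, nsmul_eq_mul, mul_one] at h3
  have h4 : ((b - w : ℕ) : ℝ) ≤ b := by exact_mod_cast Nat.sub_le b w
  have h5 : (Fintype.card ρ : ℝ) ≤ P := by exact_mod_cast hP
  have h6 : 0 ≤ ∑ n ∈ Finset.Ico w b, (1 / G n : ℝ) := Finset.sum_nonneg fun _ _ => by positivity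
  generalize ∑ n ∈ Finset.Ico w b, (1 / G n : ℝ) = σ at h h3 h6
  have h7 := h3.trans (mul_le_mul h5 (add_le_add_right h4 _) (by positivity) (by positivity))
  push_cast at h7
  have h8 : 0 ≤ (P : ℝ) * b := by positivity
  nlinarith

/-- the parameters of the forcing -/
structure Par (F G : ℕ → ℕ) where
  s : ℕ → ℕ
  w : ℕ → ℕ
  μ : ℕ → ℕ → ℕ
  ν : ℕ → ℕ → ℕ
  s0 : s 0 = 0
  ss : ∀ k, s (k + 1) = s k + μ k k
  μ0 : ∀ k, 0 < μ k 0
  hν : ∀ k m, m < k → F (s k) ^ s k * F (s (k + 1)) ^ μ k m < G (ν k m)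
  hμ : ∀ k m, m < k → (2 * F (s k) ^ s k * ν k m + 1) * μ k m ≤ μ k (m + 1)
  wk : ∀ k, k ≤ w k
  tail : ∀ k b, 2 * ((F (s k) ^ s k : ℕ) : ℝ) * ∑ n ∈ Finset.Ico (w k) b, (1 / G n : ℝ) ≤ 1

variable {F G : ℕ → ℕ}

theorem exists_par (h2 : ∀ n, 2 ≤ F n) (hm : Monotone F) (hs : Summable fun n => (1 / G n : ℝ))
    {φ : ℕ → ℕ} (hφ : ∀ c N, ∃ n, N ≤ n ∧ ∀ a ≤ c, F (n ^ c) ^ n ^ a ≤ G (n ^ φ a)) :
    Nonempty (Par F G) := by
  have h1 : ∀ P l s : ℕ, ∃ μ ν : ℕ → ℕ, 0 < μ 0 ∧ ∀ m < l,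
      P * F (s + μ l) ^ μ m < G (ν m) ∧ (2 * P * ν m + 1) * μ m ≤ μ (m + 1) := fun P l s => by
    let a : ℕ → ℕ := Nat.rec 0 fun _ a => a + φ (a + 1) + 1
    have ha : Monotone a := monotone_nat_of_le_succ fun m => by
      show a m ≤ a m + φ (a m + 1) + 1
      omega
    obtain ⟨n, hn, h⟩ := hφ (a l + 1) (2 * P + s + 1)
    have hp : ∀ j, 1 ≤ n ^ j := fun j => Nat.one_le_pow _ _ (by omega)
    refine ⟨fun m => n ^ a m, fun m => n ^ φ (a m + 1), hp _, fun m hm' => ⟨?_, ?_⟩⟩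
    · refine lt_of_lt_of_le ?_ (h (a m + 1) (Nat.succ_le_succ (ha hm'.le)))
      have e1 : F (s + n ^ a l) ≤ F (n ^ (a l + 1)) := hm (by
        have := hp (a l)
        rw [pow_succ]; nlinarith)
      have e2 : P < F (n ^ (a l + 1)) ^ P :=
        Nat.lt_two_pow_self.trans_le (Nat.pow_le_pow_left (h2 _) _)
      have e3 : 0 < F (n ^ (a l + 1)) := two_pos.trans_le (h2 _)
      refine (Nat.mul_le_mul_left _ (Nat.pow_le_pow_left e1 _)).trans_lt
        (((Nat.mul_lt_mul_right (pow_pos e3 _)).mpr e2).trans_le ?_)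
      rw [← pow_add]
      refine Nat.pow_le_pow_right e3 ?_
      have := hp (a m)
      rw [pow_succ]; nlinarith
    · show _ ≤ n ^ (a m + φ (a m + 1) + 1)
      rw [pow_succ, pow_add, mul_assoc (n ^ a m), mul_comm]
      refine Nat.mul_le_mul_left _ ?_
      beta_reduce
      have := hp (φ (a m + 1))
      nlinarith
  have h3 : ∀ P k : ℕ, ∃ w, k ≤ w ∧ ∀ b,
      2 * (P : ℝ) * ∑ n ∈ Finset.Ico w b, (1 / G n : ℝ) ≤ 1 := fun P k => by
    obtain ⟨S, hS⟩ := summable_iff_vanishing_norm.mp hs (1 / (2 * P + 1)) (by positivity)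
    refine ⟨max k (S.sup id + 1), le_max_left _ _, fun b => ?_⟩
    have := (le_abs_self _).trans (hS (Finset.Ico (max k (S.sup id + 1)) b)
      (Finset.disjoint_left.mpr fun n hn hn' => by
        have := Finset.le_sup (f := id) hn'
        have := (le_max_right _ _).trans (Finset.mem_Ico.mp hn).1
        simp only [id] at *
        omega)).le
    rw [le_div_iff₀ (by positivity)] at this
    have h6 : 0 ≤ ∑ n ∈ Finset.Ico (max k (S.sup id + 1)) b, (1 / G n : ℝ) :=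
      Finset.sum_nonneg fun _ _ => by positivity
    linarith
  choose μ ν a1 a2 using h1
  choose w w1 w2 using h3
  let s : ℕ → ℕ := Nat.rec 0 fun k s => s + μ (F s ^ s) k s k
  exact ⟨⟨s, fun k => w (F (s k) ^ s k) k, fun k => μ (F (s k) ^ s k) k (s k),
    fun k => ν (F (s k) ^ s k) k (s k), rfl, fun _ => rfl, fun _ => a1 _ _ _,
    fun _ m h => (a2 _ _ _ m h).1, fun _ m h => (a2 _ _ _ m h).2, fun _ => w1 _ _,
    fun _ => w2 _ _⟩⟩

namespace Par

variable (p : Par F G)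

theorem μ_mono {k m m' : ℕ} (h : m' ≤ m) (hk : m ≤ k) : p.μ k m' ≤ p.μ k m := by
  induction m, h using Nat.le_induction with
  | base => exact le_rfl
  | succ m _ ih =>
    exact (ih (by omega)).trans
      ((Nat.le_mul_of_pos_left _ (Nat.succ_pos _)).trans (p.hμ k m hk))

theorem s_mono : StrictMono p.s := strictMono_nat_of_lt_succ fun k => by
  have := (p.μ0 k).trans_le (p.μ_mono k.zero_le le_rfl)
  rw [p.ss]; omega

/-- the possible values of the generic real on a block -/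
abbrev T (k : ℕ) : Type := (i : Fin (p.μ k k)) → Fin (F (p.s k + i))

theorem le_blk (hm : Monotone F) {k : ℕ} (i : Fin (p.μ k k)) : F (p.s k + i) ≤ F (p.s (k + 1)) :=
  hm (p.ss k ▸ Nat.add_le_add_left i.2.le _)

theorem card_poss (hm : Monotone F) (k : ℕ) :
    Fintype.card ((i : Fin k) → p.T i) ≤ F (p.s k) ^ p.s k := by
  induction k with
  | zero => simp [p.s0]
  | succ k ih =>
    rw [Fintype.card_pi] at ih
    rw [Fintype.card_pi, Fin.prod_univ_castSucc]
    nth_rw 2 [p.ss k]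
    rw [pow_add]
    refine Nat.mul_le_mul (ih.trans (Nat.pow_le_pow_left (hm (p.s_mono.monotone k.le_succ)) _)) ?_
    rw [Fintype.card_pi]
    refine (Finset.prod_le_pow_card _ _ (F (p.s (k + 1))) fun i _ => ?_).trans (by simp)
    rw [Fintype.card_fin]
    exact p.le_blk hm i

/-- the norm measures a set of coordinates on which all patterns occur -/
def creat (h2 : ∀ n, 2 ≤ F n) : Creat p.T fun _ => Unit where
  nor k C m := m ≤ k ∧ ∃ I : Finset (Fin (p.μ k k)), p.μ k m ≤ I.card ∧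
    ∀ z : p.T k, ∃ x ∈ C, ∀ i ∈ I, x i = z i
  anti h H := ⟨h.trans H.1, H.2.imp fun _ g => ⟨(p.μ_mono h H.1).trans g.1, g.2⟩⟩
  full k := ⟨le_rfl, Finset.univ, by simp, fun z => ⟨z, trivial, fun _ _ => rfl⟩⟩
  ne := fun ⟨_, _, _, h⟩ => (h fun _ => ⟨0, two_pos.trans_le (h2 _)⟩).imp fun _ h => h.1
  big {k C m} j hj c := fun ⟨h, I, h1, h3⟩ => ⟨fun _ _ => (), m.le_succ.trans h, I,
    (p.μ_mono m.le_succ h).trans h1, fun z => (h3 z).imp fun _ g => ⟨⟨g.1, rfl⟩, g.2⟩⟩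

theorem evBig (h2 : ∀ n, 2 ≤ F n) (hm : Monotone F) (h0 : ∀ n, 0 < G n) (hG : Monotone G) :
    EvBig (p.creat h2) G p.w := by
  classical
  rintro l C m k hk τ ⟨hl, I, h1, h3⟩
  have hP : F (p.s k) ^ p.s k ≤ F (p.s l) ^ p.s l :=
    (Nat.pow_le_pow_left (hm (p.s_mono.monotone hk)) _).trans
      (Nat.pow_le_pow_right (two_pos.trans_le (h2 _)) (p.s_mono.monotone hk))
  obtain ⟨e⟩ : Nonempty (Fin (2 * F (p.s l) ^ p.s l * p.ν l m + 1) × Fin (p.μ l m) ↪ I) :=
    Function.Embedding.nonempty_of_card_le (by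
      rw [Fintype.card_prod, Fintype.card_fin, Fintype.card_fin, Fintype.card_coe]
      exact (p.hμ l m hl).trans h1)
  obtain ⟨u, hu⟩ : ∃ u : Fin (2 * F (p.s l) ^ p.s l * p.ν l m + 1), ∀ z : p.T l, ∃ x ∈ C,
      (∀ ρ n, p.w k ≤ n → n < p.ν l m → τ x ρ n ≠ u % G n) ∧
        ∀ j, x (e (u, j)) = z (e (u, j)) := by
    by_contra hc
    push Not at hc
    choose z hz using hc
    obtain ⟨x, x1, x2⟩ := h3 fun i => if h : ∃ q, (e q).1 = i then z h.choose.1 i else
      ⟨0, two_pos.trans_le (h2 _)⟩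
    obtain ⟨u, u1, u2⟩ := cover (p.card_poss hm k) (p.tail k (p.ν l m)) (τ x)
    have u3 := u1.trans_le (Nat.succ_le_succ
      (Nat.mul_le_mul_right _ (Nat.mul_le_mul_left _ hP)))
    obtain ⟨j, hj⟩ := hz ⟨u, u3⟩ x x1 u2
    refine hj ((x2 _ (e _).2).trans ?_)
    have h : ∃ q, (e q).1 = (e (⟨u, u3⟩, j)).1 := ⟨_, rfl⟩
    rw [dif_pos h, e.injective (Subtype.ext h.choose_spec)]
  let π : p.T l → Fin (p.μ l m) → Fin (F (p.s (l + 1))) := fun z j =>
    (z (e (u, j))).castLE (p.le_blk hm _)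
  have h4 : ∀ ζ, ∃ x : p.T l, (∃ z, π z = ζ) → x ∈ C ∧
      (∀ ρ n, p.w k ≤ n → n < p.ν l m → τ x ρ n ≠ u % G n) ∧ π x = ζ := fun ζ => by
    by_cases h : ∃ z, π z = ζ
    · obtain ⟨z, rfl⟩ := h
      obtain ⟨x, x1, x2, x3⟩ := hu z
      exact ⟨x, fun _ => ⟨x1, x2, funext fun j => by simp only [π, x3]⟩⟩
    · exact ⟨fun _ => ⟨0, two_pos.trans_le (h2 _)⟩, fun g => absurd g h⟩
  choose X hX using h4
  have h5 : ∀ n, p.ν l m ≤ n → ∃ y < G n, ∀ ρ ζ, τ (X ζ) ρ n ≠ y := fun n hn => by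
    by_contra hc
    push Not at hc
    have := Finset.card_le_card (s := Finset.range (G n))
      (t := Finset.univ.image fun q : ((i : Fin k) → p.T i) × _ => τ (X q.2) q.1 n) fun y hy => by
        obtain ⟨ρ, ζ, h⟩ := hc y (Finset.mem_range.mp hy)
        exact Finset.mem_image.mpr ⟨(ρ, ζ), Finset.mem_univ _, h⟩
    have := this.trans Finset.card_image_le
    rw [Finset.card_range, Finset.card_univ, Fintype.card_prod, Fintype.card_fun, Fintype.card_fin,
      Fintype.card_fin] at this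
    exact absurd (this.trans (Nat.mul_le_mul_right _ ((p.card_poss hm k).trans hP)))
      (not_le.mpr ((p.hν l m hl).trans_le (hG hn)))
  choose! y y1 y2 using h5
  refine ⟨fun n => if n < p.ν l m then u % G n else y n, fun n => ?_, m.le_succ.trans hl,
    Finset.univ.image fun j => (e (u, j)).1, ?_, fun z => ?_⟩
  · beta_reduce
    split_ifs with h
    exacts [Nat.mod_lt _ (h0 n), y1 n (not_lt.mp h)]
  · rw [Finset.card_image_of_injective _ fun j j' h =>
      (Prod.ext_iff.mp (e.injective (Subtype.ext h))).2, Finset.card_univ, Fintype.card_fin]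
  · obtain ⟨x1, x2, x3⟩ := hX (π z) ⟨z, rfl⟩
    refine ⟨X (π z), ⟨x1, fun ρ n hn => ?_⟩, fun i hi => ?_⟩
    · beta_reduce
      split_ifs with h
      exacts [x2 ρ n hn h, y2 n (not_lt.mp h) ρ _]
    · obtain ⟨j, -, rfl⟩ := Finset.mem_image.mp hi
      exact Fin.castLE_injective _ (congrFun x3 j)

end Par

end Pool.Agent.P.MP_081461_lc
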