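import Pool.Agent.P.MP_081461_lc.Creat

/-! Fusion with an evading form of bigness: values are avoided instead of decided. -/

namespace Pool.Agent.P.MP_081461_lc

open Set Pool.Agent.P.MP_b10269_lc.H21

variable {T K : ℕ → Type} [∀ k, Fintype (T k)] [∀ n, Fintype (K n)] {N : Creat T K} {Λ : Type}

/-- evading bigness -/
def EvBig (N : Creat T K) (G w : ℕ → ℕ) : Prop :=
  ∀ {l C m} (k : ℕ) (_ : k ≤ l) (τ : T l → ((i : Fin k) → T i) → ℕ → ℕ), N.nor l C (m + 1) →
    ∃ y : ℕ → ℕ, (∀ n, y n < G n) ∧ N.nor l {x ∈ C | ∀ ρ n, w k ≤ n → τ x ρ n ≠ y n} m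

/-- below `q` the value `y` is avoided -/
def Avoid (W : ℕ → Set (Cond N Λ)) (q : Cond N Λ) (y : ℕ) : Prop :=
  ∀ r ≤ q, ∃ t ≤ r, ∃ v, v ≠ y ∧ t ∈ W v

variable {G w : ℕ → ℕ} (hN : EvBig N G w)
  {A : ℕ → ℕ → Set (Cond N Λ)} (hA : ∀ n v, IsLowerSet (A n v))
include hN hA

theorem stage' {q : Cond N Λ} (hd : ∀ n, ∀ r ≤ q, ∃ t ≤ r, ∃ v, t ∈ A n v) (k : ℕ)
    (a : ℕ → Option Λ) (α : Λ) (m : ℕ) : ∃ q' ≤ q, ∃ l, k ≤ l ∧ ∃ a' : ℕ → Option Λ,
      (∀ j < k, a' j = a j) ∧ (∀ j < k, ∀ β, a j = some β → q'.s β j = q.s β j) ∧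
      a' l = some α ∧ N.nor l (q'.s α l) m ∧ ∃ y : ℕ → ℕ, (∀ n, y n < G n) ∧
      ∀ n, w k ≤ n → n < w (l + 1) → Avoid (A n) q' (y n) := by
  classical
  obtain ⟨l, hl, hn⟩ := q.lim α (m + 1) k
  let a' : ℕ → Option Λ := fun j => if j < k then a j else if j = l then some α else none
  have a1 : ∀ j < k, a' j = a j := fun j hj => if_pos hj
  have a2 : a' l = some α := (if_neg (not_lt.mpr hl)).trans (if_pos rfl)
  have d : ∀ j, T j := fun j => (N.ne (N.full j)).some
  let ex : ((i : Fin k) → T i) → ∀ j, T j := fun ρ j => if h : j < k then ρ ⟨j, h⟩ else d j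
  obtain ⟨q₁, h1, h2, c, hc⟩ := decide_all
    (fun z : ((i : Fin k) → T i) × T l => Function.update (ex z.1) l z.2)
    (fun v : Fin (w (l + 1)) → ℕ => ⋂ n : Fin (w (l + 1)), A n (v n))
    (fun v => isLowerSet_iInter fun n => hA n _) q
    (dense_upto (K' := fun _ => ℕ) hA hd (w (l + 1))) a' (l + 1)
  obtain ⟨y, hy, hw⟩ := hN k hl
    (fun x ρ n => if h : n < w (l + 1) then c (ρ, x) ⟨n, h⟩ else 0) hn
  rw [← h2 l l.lt_succ_self α a2] at hw
  obtain ⟨q₂, g1, g2, g3⟩ := q₁.exists_set α l (N.ne hw) (sep_subset _ _)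
  refine ⟨q₂, g1.trans h1, l, hl, a', a1, fun j hj β hβ => ?_, a2, g2 ▸ hw, y, hy,
    fun n hn' hn r hr => ?_⟩
  · rw [g3 β j (by omega), h2 j (by omega) β ((a1 j hj).trans hβ)]
  · choose x hx using r.ne
    let ρ : (i : Fin k) → T i := fun i => (a i).elim (d i) fun β => x β i
    have l1 : r.patch a' (l + 1) (fun β j => {x β j}) (fun _ _ => singleton_nonempty _) ≤ r :=
      fun β j => by
        by_cases h : j < l + 1 ∧ a' j = some β
        · rw [Cond.patch_pos _ _ h]; exact singleton_subset_iff.mpr (hx β j)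
        · rw [Cond.patch_neg _ _ h]
    have e := (g2 ▸ hr α l (hx α l) :).2 ρ n hn'
    simp only [dif_pos hn] at e
    refine ⟨_, l1, _, e, ?_⟩
    refine mem_iInter.mp (hc (ρ, x α l) _ ⟨(l1.trans hr).trans g1, fun j hj β hβ => ?_⟩) ⟨n, hn⟩
    rw [Cond.patch_pos _ _ ⟨hj, hβ⟩, singleton_subset_singleton]
    by_cases hk : j < k
    · rw [Function.update_of_ne (by omega)]
      simp only [ex, ρ, dif_pos hk, (a1 j hk).symm.trans hβ, Option.elim_some]
    · by_cases hjl : j = l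
      · subst hjl
        rw [Function.update_self, Option.some_injective _ (a2.symm.trans hβ)]
      · simp [a', hk, hjl] at hβ

theorem timely' [Nonempty Λ] (hw : ∀ k, k ≤ w k) {p : Cond N Λ}
    (hd : ∀ n, ∀ r ≤ p, ∃ t ≤ r, ∃ v, t ∈ A n v) :
    ∃ q ≤ p, ∀ n, w 0 ≤ n → ∃ y < G n, Avoid (A n) q y := by
  classical
  choose en hen using fun q : Cond N Λ =>
    (q.supp.insert (Classical.arbitrary Λ)).exists_eq_range (insert_nonempty _ _)
  obtain ⟨f, f0, hf⟩ := exists_seq_hist (S := {q // q ≤ p} × ℕ × (ℕ → Option Λ))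
    (fun i s u s' => s'.1.1 ≤ s.1.1 ∧ ∃ l, s.2.1 ≤ l ∧ s'.2.1 = l + 1 ∧
      (∀ j < s.2.1, s'.2.2 j = s.2.2 j) ∧
      (∀ j < s.2.1, ∀ β, s.2.2 j = some β → s'.1.1.s β j = s.1.1.s β j) ∧
      s'.2.2 l = some (en u.1.1 i.unpair.2.unpair.1) ∧
      N.nor l (s'.1.1.s (en u.1.1 i.unpair.2.unpair.1) l) i ∧ ∃ y : ℕ → ℕ, (∀ n, y n < G n) ∧
      ∀ n, w s.2.1 ≤ n → n < w (l + 1) → Avoid (A n) s'.1.1 (y n))
    (⟨p, le_rfl⟩, 0, fun _ => none) fun i s u => by
      obtain ⟨q', h1, l, h2, a', h3⟩ := stage' hN hA (q := s.1.1)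
        (fun n r hr => hd n r (hr.trans s.1.2)) s.2.1 s.2.2 (en u.1.1 i.unpair.2.unpair.1) i
      exact ⟨(⟨q', h1.trans s.1.2⟩, l + 1, a'), h1, l, h2, rfl, h3⟩
  have hq : Antitone fun i => (f i).1.1 := antitone_nat_of_succ_le fun i => (hf i).1
  choose l l1 l2 l3 l4 l5 l6 y l7 l8 using fun i => (hf i).2
  have hk : StrictMono fun i => (f i).2.1 := strictMono_nat_of_lt_succ fun i => by
    have := l1 i
    have := l2 i
    omega
  have frz : ∀ i i', i ≤ i' → ∀ j < (f i).2.1, ∀ β, (f i).2.2 j = some β →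
      (f i').2.2 j = some β ∧ (f i').1.1.s β j = (f i).1.1.s β j := by
    intro i i' h j hj β hβ
    induction i', h using Nat.le_induction with
    | base => exact ⟨hβ, rfl⟩
    | succ i' h ih =>
      have hj' := hj.trans_le (hk.monotone h)
      exact ⟨(l3 i' j hj').trans ih.1, (l4 i' j hj' β ih.1).trans ih.2⟩
  let q : Cond N Λ := ⟨fun α j => ⋂ i, (f i).1.1.s α j, ?_, fun α j => ?_, fun α m n => ?_⟩
  · have hle : ∀ i, q ≤ (f i).1.1 := fun i α j => iInter_subset (fun i => (f i).1.1.s α j) i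
    refine ⟨q, (hle 0).trans (f 0).1.2, fun n hn => ?_⟩
    have hex : ∃ i, n < w (l i + 1) :=
      ⟨n, (Nat.lt_succ_of_le ((hk.le_apply (x := n)).trans (l1 _))).trans_le (hw _)⟩
    refine ⟨y (Nat.find hex) n, l7 _ n, fun r hr =>
      l8 _ n ?_ (Nat.find_spec hex) r (hr.trans (hle _))⟩
    rcases h : Nat.find hex with _ | i
    · rw [f0]; exact hn
    · have := Nat.find_min hex (i.lt_succ_self.trans_eq h.symm)
      rw [l2]; omega
  · refine (countable_iUnion fun i => (f i).1.1.supp).mono fun α h => ?_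
    by_contra hc
    simp only [mem_iUnion, not_exists, mem_ofPred_eq, not_not] at hc
    exact h (funext fun j => by simp [hc])
  · by_contra hc
    rw [nonempty_iInter] at hc
    push Not at hc
    choose g hg using hc
    obtain ⟨x, hx⟩ := (f (Finset.univ.sup g)).1.1.ne α j
    exact hg x (hq (Finset.le_sup (Finset.mem_univ x)) α j hx)
  · by_cases h : ∃ i, (f i).1.1.s α ≠ fun _ => univ
    · obtain ⟨i₀, hi⟩ := h
      obtain ⟨e, he⟩ : α ∈ range (en (f i₀).1.1) := hen _ ▸ Or.inr hi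
      let i := Nat.pair i₀ (Nat.pair e (max m n))
      have hi' : max m n ≤ i := (Nat.right_le_pair _ _).trans (Nat.right_le_pair _ _)
      have e1 : en (f i.unpair.1).1.1 i.unpair.2.unpair.1 = α := by simp [i, he]
      have h5 := l5 i
      have h6 := l6 i
      rw [e1] at h5 h6
      refine ⟨l i, ((le_max_right _ _).trans hi').trans (hk.le_apply.trans (l1 i)), ?_⟩
      have e2 : ⋂ i', (f i').1.1.s α (l i) = (f (i + 1)).1.1.s α (l i) :=
        (iInter_subset (fun i' => (f i').1.1.s α (l i)) _).antisymm (subset_iInter fun i' => by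
          rcases le_total (i + 1) i' with h | h
          · rw [(frz _ _ h (l i) (by rw [l2]; omega) α h5).2]
          · exact hq h α _)
      rw [e2]
      exact N.anti ((le_max_left _ _).trans hi') h6
    · push Not at h
      simpa [h, iInter_const] using lim_full m n

end Pool.Agent.P.MP_081461_lc
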